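import Pool.Agent.Lib.MP_fcdd89_co.Mp.Split

/-!
Cutting off the component of the marked point.
-/

set_option autoImplicit false

open Finset MvPolynomial Equiv

namespace Pool.Agent.Lib.MP_fcdd89_co.Mp

variable {V : Type} [Fintype V] [DecidableEq V] {σ : Type} {e : ℕ → σ}
  {α : ℝ} {D K S A T : Finset V} {a b d a' b' d' a1 a2 b1 b2 d1 d2 : Perm V} {r : V}
  {c c' : V → ℝ}

omit [Fintype V] in
theorem cut_left (h2 : Mt (D \ S) c' α a2) : ∀ p ∈ S, (a1 * a2) p = a1 p := fun p hp => by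
  rw [Perm.mul_apply, h2.off p fun h => (mem_sdiff.1 h).2 hp]

omit [Fintype V] in
theorem cut_right (h1 : Mt S c α a1) (h2 : Mt (D \ S) c' α a2) :
    ∀ p ∈ D \ S, (a1 * a2) p = a2 p := fun p hp => by
  rw [Perm.mul_apply, h1.off _ (mem_sdiff.1 (h2.mem p hp)).2]

theorem cmp_sub (ha : ∀ u ∈ T, a u ∈ T) (hb : ∀ u ∈ T, b u ∈ T) (hd : ∀ u ∈ T, d u ∈ T)
    (hx : r ∈ T) : cmp a b d r ⊆ T := fun y hy => by
  have := mem_cmp.1 hy
  clear hy
  induction this with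
  | refl => exact hx
  | tail _ h ih => rcases h with rfl | rfl | rfl; exacts [ha _ ih, hb _ ih, hd _ ih]

theorem self_cmp : r ∈ cmp a b d r := mem_cmp.2 Relation.ReflTransGen.refl

theorem a_cmp : ∀ u ∈ cmp a b d r, a u ∈ cmp a b d r := fun _ h =>
  mem_cmp.2 ((mem_cmp.1 h).tail (Or.inl rfl))

theorem b_cmp : ∀ u ∈ cmp a b d r, b u ∈ cmp a b d r := fun _ h =>
  mem_cmp.2 ((mem_cmp.1 h).tail (Or.inr (Or.inl rfl)))

theorem d_cmp : ∀ u ∈ cmp a b d r, d u ∈ cmp a b d r := fun _ h =>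
  mem_cmp.2 ((mem_cmp.1 h).tail (Or.inr (Or.inr rfl)))

theorem cmp_congr (ha : ∀ u ∈ T, a u ∈ T) (hb : ∀ u ∈ T, b u ∈ T) (hd : ∀ u ∈ T, d u ∈ T)
    (ea : ∀ u ∈ T, a' u = a u) (eb : ∀ u ∈ T, b' u = b u) (ed : ∀ u ∈ T, d' u = d u)
    (hx : r ∈ T) : cmp a' b' d' r = cmp a b d r := by
  have h1 := cmp_sub ha hb hd hx
  have h2 : cmp a' b' d' r ⊆ cmp a b d r :=
    cmp_sub (fun u hu => ea u (h1 hu) ▸ a_cmp u hu) (fun u hu => eb u (h1 hu) ▸ b_cmp u hu)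
      (fun u hu => ed u (h1 hu) ▸ d_cmp u hu) self_cmp
  exact h2.antisymm (cmp_sub (fun u hu => ea u (h1 (h2 hu)) ▸ a_cmp u hu)
    (fun u hu => eb u (h1 (h2 hu)) ▸ b_cmp u hu) (fun u hu => ed u (h1 (h2 hu)) ▸ d_cmp u hu)
    self_cmp)

theorem Pm_cut (ha : ∀ u ∈ S, a u ∈ S) (hb : ∀ u ∈ S, b u ∈ S) (hA : A ⊆ S) :
    Pm e a b (A ∪ D \ S) = Pm e a b A * Pm e a b (D \ S) := by
  rw [Pm, image_union, prod_union, Pm, Pm]
  rw [disjoint_left]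
  intro C h1 h2
  obtain ⟨x, hx, rfl⟩ := mem_image.1 h1
  obtain ⟨y, hy, h⟩ := mem_image.1 h2
  exact (mem_sdiff.1 hy).2 (orb_sub ha hb (hA hx) (h ▸ self_orb a b y))

theorem ty_cut (hS : S ⊆ D) (hr : r ∈ S) (ha1 : Mt S c α a1) (ha2 : Mt (D \ S) c' α a2)
    (hb1 : Mt S c α b1) (hb2 : Mt (D \ S) c' α b2) :
    ty e (a1 * a2) (b1 * b2) D r = ty e a1 b1 S r * Pm e a2 b2 (D \ S) := by
  have ea := cut_left (a1 := a1) ha2
  have eb := cut_left (a1 := b1) hb2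
  have ho : ∀ x ∈ S, orb (a1 * a2) (b1 * b2) x = orb a1 b1 x := fun x hx =>
    orb_congr ha1.mem hb1.mem ea eb hx
  have hO := ha1.orb_sub hb1 hr
  have hD : D \ orb a1 b1 r = (S \ orb a1 b1 r) ∪ D \ S := by
    ext x
    simp only [mem_sdiff, mem_union]
    constructor
    · rintro ⟨h1, h2⟩
      by_cases h : x ∈ S
      exacts [Or.inl ⟨h, h2⟩, Or.inr ⟨h1, h⟩]
    · rintro (⟨h1, h2⟩ | ⟨h1, h2⟩)
      exacts [⟨hS h1, h2⟩, ⟨h1, fun h => h2 (hO h)⟩]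
  rw [ty, ty, ho r hr, hD, Pm_cut (fun u hu => ea u hu ▸ ha1.mem u hu)
    (fun u hu => eb u hu ▸ hb1.mem u hu) sdiff_subset,
    Pm_congr ha2.mem hb2.mem (cut_right ha1 ha2) (cut_right hb1 hb2), mul_assoc]
  congr 2
  rw [Pm, Pm, image_congr fun x hx => ho x (mem_sdiff.1 hx).1]

theorem t3_cut (hS : S ⊆ D) (hr : r ∈ S) (ha1 : Mt S c α a1) (ha2 : Mt (D \ S) c' α a2)
    (hb1 : Mt S c α b1) (hb2 : Mt (D \ S) c' α b2) (hd1 : Mt S c α d1)
    (hd2 : Mt (D \ S) c' α d2) :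
    t3 (a1 * a2) (b1 * b2) (d1 * d2) D r = t3 a1 b1 d1 S r * P3 a2 b2 d2 (D \ S) := by
  rw [t3, t3, P3, ty_cut hS hr ha1 ha2 hb1 hb2, ty_cut hS hr hb1 hb2 hd1 hd2,
    ty_cut hS hr hd1 hd2 ha1 ha2]
  ring

omit [Fintype V] in
theorem sum_pow_cut {M : Type} [AddCommMonoid M] (hS : S ⊆ D) (f : Finset V → M) :
    ∑ K ∈ D.powerset, f K = ∑ K1 ∈ S.powerset, ∑ K2 ∈ (D \ S).powerset, f (K1 ∪ K2) := by
  rw [← sum_product']
  refine sum_nbij' (fun K => (K ∩ S, K \ S)) (fun p => p.1 ∪ p.2) ?_ ?_ ?_ ?_ ?_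
  · intro K hK
    rw [mem_powerset] at hK
    exact mem_product.2 ⟨mem_powerset.2 inter_subset_right,
      mem_powerset.2 (sdiff_subset_sdiff hK Subset.rfl)⟩
  · intro p hp
    obtain ⟨h1, h2⟩ := mem_product.1 hp
    exact mem_powerset.2 (union_subset ((mem_powerset.1 h1).trans hS)
      ((mem_powerset.1 h2).trans sdiff_subset))
  · intro K _
    ext x
    simp only [mem_union, mem_inter, mem_sdiff]
    tauto
  · intro p hp
    obtain ⟨h1, h2⟩ := mem_product.1 hp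
    have k1 := mem_powerset.1 h1
    have k2 := mem_powerset.1 h2
    ext x
    · simp only [mem_union, mem_inter]
      exact ⟨fun h => h.1.elim id fun k => absurd h.2 (mem_sdiff.1 (k2 k)).2,
        fun h => ⟨Or.inl h, k1 h⟩⟩
    · simp only [mem_union, mem_sdiff]
      exact ⟨fun h => h.1.elim (fun k => absurd (k1 k) h.2) id,
        fun h => ⟨Or.inr h, (mem_sdiff.1 (k2 h)).2⟩⟩
  · intro K _
    congr 1
    ext x
    simp only [mem_union, mem_inter, mem_sdiff]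
    tauto

theorem sum_cut {K1 K2 : Finset V} (hS : S ⊆ D) (hr : r ∈ S) (h1 : ∀ p ∈ S, p ∈ K1 ↔ p ∈ K)
    (h2 : ∀ p ∈ D \ S, p ∈ K2 ↔ p ∈ K) :
    (∑ a ∈ MM α D K, ∑ b ∈ MM α D K, ∑ d ∈ MM α D K,
      if cmp a b d r = S then t3 a b d D r else 0) =
    (∑ a ∈ MM α S K1, ∑ b ∈ MM α S K1, ∑ d ∈ MM α S K1 with cmp a b d r = S, t3 a b d S r) *
      ∑ a ∈ MM α (D \ S) K2, ∑ b ∈ MM α (D \ S) K2, ∑ d ∈ MM α (D \ S) K2,
        P3 a b d (D \ S) := by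
  have key : ∀ g : Perm V → Tri, (∀ a, ¬ (∀ p ∈ S, a p ∈ S) → g a = 0) →
      ∑ a ∈ MM α D K, g a = ∑ a1 ∈ MM α S K1, ∑ a2 ∈ MM α (D \ S) K2, g (a1 * a2) := by
    intro g hg
    rw [← sum_split hS h1 h2, sum_filter]
    refine sum_congr rfl fun a _ => ?_
    split_ifs with h
    exacts [rfl, hg a h]
  rw [key _ fun a h => sum_eq_zero fun b _ => sum_eq_zero fun d _ =>
    if_neg fun k : cmp a b d r = S => h (k ▸ a_cmp), sum_mul_sum]
  refine sum_congr rfl fun a1 ha1 => sum_congr rfl fun a2 ha2 => ?_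
  rw [key _ fun b h => sum_eq_zero fun d _ =>
    if_neg fun k : cmp (a1 * a2) b d r = S => h (k ▸ b_cmp), sum_mul_sum]
  refine sum_congr rfl fun b1 hb1 => sum_congr rfl fun b2 hb2 => ?_
  rw [key _ fun d h => if_neg fun k : cmp (a1 * a2) (b1 * b2) d r = S => h (k ▸ d_cmp),
    sum_filter, sum_mul_sum]
  refine sum_congr rfl fun d1 hd1 => sum_congr rfl fun d2 hd2 => ?_
  rw [mem_MM] at ha1 ha2 hb1 hb2 hd1 hd2
  rw [cmp_congr ha1.mem hb1.mem hd1.mem (cut_left ha2) (cut_left hb2) (cut_left hd2) hr,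
    t3_cut hS hr ha1 ha2 hb1 hb2 hd1 hd2, ite_mul, zero_mul]

theorem TT_conn (hr : r ∈ D) :
    TT α D r = ∑ S ∈ D.powerset with r ∈ S, CT α S r * FF α (D \ S) := by
  classical
  have h0 : TT α D r = ∑ S ∈ D.powerset with r ∈ S, ∑ K ∈ D.powerset with ind K r = α - 1,
      ∑ a ∈ MM α D K, ∑ b ∈ MM α D K, ∑ d ∈ MM α D K,
        if cmp a b d r = S then t3 a b d D r else 0 := by
    rw [TT]
    symm
    rw [sum_comm]
    refine sum_congr rfl fun K _ => ?_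
    rw [sum_comm]
    refine sum_congr rfl fun a ha => ?_
    rw [sum_comm]
    refine sum_congr rfl fun b hb => ?_
    rw [sum_comm]
    refine sum_congr rfl fun d hd => ?_
    rw [sum_ite_eq, if_pos]
    exact mem_filter.2 ⟨mem_powerset.2 (cmp_sub (mem_MM.1 ha).mem (mem_MM.1 hb).mem
      (mem_MM.1 hd).mem hr), self_cmp⟩
  rw [h0]
  refine sum_congr rfl fun S hS => ?_
  obtain ⟨hS, hrS⟩ := mem_filter.1 hS
  rw [mem_powerset] at hS
  rw [sum_filter, sum_pow_cut hS, CT, FF, sum_filter, sum_mul_sum]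
  refine sum_congr rfl fun K1 h1 => sum_congr rfl fun K2 h2 => ?_
  have k1 := mem_powerset.1 h1
  have k2 := mem_powerset.1 h2
  have e1 : ∀ p ∈ S, p ∈ K1 ↔ p ∈ K1 ∪ K2 := fun p hp =>
    ⟨mem_union_left _, fun h => (mem_union.1 h).elim id fun k => absurd hp (mem_sdiff.1 (k2 k)).2⟩
  have e2 : ∀ p ∈ D \ S, p ∈ K2 ↔ p ∈ K1 ∪ K2 := fun p hp =>
    ⟨mem_union_right _, fun h => (mem_union.1 h).elim
      (fun k => absurd (k1 k) (mem_sdiff.1 hp).2) id⟩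
  have e3 : ind (K1 ∪ K2) r = ind K1 r := by simp only [ind, e1 r hrS]
  rw [e3, sum_cut hS hrS e1 e2, ite_mul, zero_mul]

end Pool.Agent.Lib.MP_fcdd89_co.Mp
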