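import Pool.Agent.Lib.MP_fcdd89_co.Mp.Orb
import Pool.Agent.Lib.MP_fcdd89_co.Int

/-!
Generating sums over triples of matchings.
-/

set_option autoImplicit false

open Finset MvPolynomial Equiv

namespace Pool.Agent.Lib.MP_fcdd89_co.Mp

variable {V : Type} [Fintype V] [DecidableEq V]

/-- The indicator of a colour set. -/
noncomputable def ind (K : Finset V) : V → ℝ := fun p => if p ∈ K then 1 else 0

open Classical in
/-- The matchings of `D` whose pairs have colour sum `α`. -/
noncomputable def MM (α : ℝ) (D K : Finset V) : Finset (Perm V) := univ.filter (Mt D (ind K) α)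

theorem mem_MM {α : ℝ} {D K : Finset V} {b : Perm V} : b ∈ MM α D K ↔ Mt D (ind K) α b := by
  simp [MM]

/-- The matching in which `r` is paired with `v` and the old partners are paired together. -/
def rew (r : V) (b : Perm V) (v : V) : Perm V := swap (b r) v * b * swap (b r) v

/-- `y` is reached from `x` by applying `a`, `b` and `d`. -/
def Rch3 (a b d : Perm V) (x y : V) : Prop :=
  Relation.ReflTransGen (fun u v => v = a u ∨ v = b u ∨ v = d u) x y

open Classical in
/-- The component of `x` for three matchings. -/
noncomputable def cmp (a b d : Perm V) (x : V) : Finset V := univ.filter (Rch3 a b d x)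

theorem mem_cmp {a b d : Perm V} {x y : V} : y ∈ cmp a b d x ↔ Rch3 a b d x y := by simp [cmp]

/-- The half sizes of the orbits that meet `D`. -/
noncomputable def typ (a b : Perm V) (D : Finset V) : Multiset ℕ :=
  (D.image (orb a b)).val.map fun C => C.card / 2

/-- The monomial of a triple of matchings. -/
noncomputable def P3 (a b d : Perm V) (D : Finset V) : Tri :=
  Pm (Prod.mk 0) a b D * Pm (Prod.mk 1) b d D * Pm (Prod.mk 2) d a D

/-- The monomial of a triple of matchings with a marked point. -/
noncomputable def t3 (a b d : Perm V) (D : Finset V) (r : V) : Tri :=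
  ty (Prod.mk 0) a b D r * ty (Prod.mk 1) b d D r * ty (Prod.mk 2) d a D r

/-- The sum over coloured triples of matchings of `D`. -/
noncomputable def FF (α : ℝ) (D : Finset V) : Tri :=
  ∑ K ∈ D.powerset, ∑ a ∈ MM α D K, ∑ b ∈ MM α D K, ∑ d ∈ MM α D K, P3 a b d D

open Classical in
/-- The sum over coloured triples of matchings of `D` with the marked point `r`. -/
noncomputable def TT (α : ℝ) (D : Finset V) (r : V) : Tri :=
  ∑ K ∈ D.powerset with ind K r = α - 1,
    ∑ a ∈ MM α D K, ∑ b ∈ MM α D K, ∑ d ∈ MM α D K, t3 a b d D r

open Classical in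
/-- The sum over connected coloured triples of matchings of `D` with the marked point `r`. -/
noncomputable def CT (α : ℝ) (D : Finset V) (r : V) : Tri :=
  ∑ K ∈ D.powerset with ind K r = α - 1,
    ∑ a ∈ MM α D K, ∑ b ∈ MM α D K, ∑ d ∈ MM α D K with cmp a b d r = D, t3 a b d D r

end Pool.Agent.Lib.MP_fcdd89_co.Mp
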