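import Mathlib

/-!
A polynomial with natural coefficients is the generating function of a statistic on any finite set
of the right size.
-/

set_option autoImplicit false

open Finset Polynomial

namespace Pool.Agent.Lib.MP_fcdd89_co.Mp

theorem exists_eta {S : Type} [Fintype S] (O : S → Prop) [DecidablePred O] (P : ℕ[X])
    (h0 : P.coeff 0 = (univ.filter O).card) (h1 : P.eval 1 = Fintype.card S) :
    ∃ η : S → ℕ, (∀ x, η x = 0 ↔ O x) ∧ ∀ β : ℝ, ∑ x, β ^ η x = aeval β P := by
  classical
  have hs : P.eval 1 = P.coeff 0 + ∑ k : Fin P.natDegree, P.coeff (k + 1) := by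
    rw [eval_eq_sum_range, sum_range_succ', add_comm, Fin.sum_univ_eq_sum_range
      (fun k => P.coeff (k + 1))]
    simp
  have hc : Fintype.card {x // ¬ O x} =
      Fintype.card (Σ k : Fin P.natDegree, Fin (P.coeff (k + 1))) := by
    rw [Fintype.card_sigma, Fintype.card_subtype_compl, Fintype.card_subtype]
    simp only [Fintype.card_fin]
    rw [← h1, hs, h0]
    convert Nat.add_sub_cancel_left _ _
  obtain ⟨φ⟩ := Fintype.card_eq.1 hc
  refine ⟨fun x => if h : O x then 0 else (φ ⟨x, h⟩).1 + 1, fun x => ?_, fun β => ?_⟩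
  · by_cases h : O x <;> simp [h]
  · rw [← Fintype.sum_subtype_add_sum_subtype O, aeval_eq_sum_range, sum_range_succ', add_comm]
    congr 1
    · rw [← Fin.sum_univ_eq_sum_range (fun k => P.coeff (k + 1) • β ^ (k + 1)),
        Fintype.sum_equiv φ _ (fun y => β ^ ((y.1 : ℕ) + 1)) fun x => by simp [x.2],
        Fintype.sum_sigma]
      simp
    · rw [Fintype.sum_congr _ (fun _ => (1 : ℝ)) fun x => by simp [x.2]]
      simp [h0, Fintype.card_subtype]

end Pool.Agent.Lib.MP_fcdd89_co.Mp
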