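import Pool.Agent.Lib.MP_fcdd89_co.Mp.G
import Pool.Agent.Lib.MP_fcdd89_co.Mp.C

/-!
The coefficient of the logarithm counts connected coloured triples of matchings.
-/

set_option autoImplicit false

open Finset MvPolynomial Equiv

namespace Pool.Agent.Lib.MP_fcdd89_co.Mp

variable {V : Type} [Fintype V] [DecidableEq V] {σ : Type} [DecidableEq σ] {e : ℕ → σ}
  {α : ℝ} {D : Finset V} {a b d : Perm V} {r : V} {N n : ℕ} {ψ J : ℕ → Ix → R}

theorem N_CT_odd (h : Odd D.card) : CT α D r = 0 := by
  simp [CT, MM_odd h]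

theorem N_CT_eq (s : Sys α N ψ J) (hα : α = 1 ∨ α = 2) (hn : n ≤ N) (hD : D.card = 2 * n + 2)
    (hr : r ∈ D) : CT α D r = ((2 * n + 1).factorial : ℝ) • Ph α 0 1 2 ψ J n := by
  induction n using Nat.strong_induction_on generalizing D with
  | _ n ih =>
  have e := TT_conn (α := α) hr
  rw [TT_eq s hα hn hD hr, s.T3_conv] at e
  -- reindex by subsets of D.erase r
  have e2 : ∑ S ∈ D.powerset with r ∈ S, CT α S r * FF α (D \ S) =
      ∑ T ∈ (D.erase r).powerset, CT α (insert r T) r * FF α (D \ insert r T) := by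
    refine sum_nbij' (fun S => S.erase r) (fun T => insert r T) ?_ ?_ ?_ ?_ ?_
    · intro S hS
      exact mem_powerset.2 (erase_subset_erase _ (mem_powerset.1 (mem_filter.1 hS).1))
    · intro T hT
      exact mem_filter.2 ⟨mem_powerset.2 (insert_subset hr
        ((mem_powerset.1 hT).trans (erase_subset _ _))), mem_insert_self _ _⟩
    · intro S hS
      exact insert_erase (mem_filter.1 hS).2
    · intro T hT
      exact erase_insert fun h => (notMem_erase r D) (mem_powerset.1 hT h)
    · intro S hS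
      simp only [insert_erase (mem_filter.1 hS).2]
  have hE : (D.erase r).card = 2 * n + 1 := by rw [card_erase_of_mem hr]; omega
  let g : ℕ → Tri := fun j => if j % 2 = 1 then ((j.factorial : ℝ) *
    (2 * n + 1 - j).factorial) • (Ph α 0 1 2 ψ J (j / 2) *
      phi α 0 1 2 (n - j / 2) (J (n - j / 2))) else 0
  have key : ∀ T ∈ (D.erase r).powerset.erase (D.erase r),
      CT α (insert r T) r * FF α (D \ insert r T) = g T.card := by
    intro T hT
    obtain ⟨h1, h2⟩ := mem_erase.1 hT
    have h3 := mem_powerset.1 h2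
    have h4 : T.card < 2 * n + 1 := hE ▸ card_lt_card (h3.ssubset_of_ne h1)
    have h5 : r ∉ T := fun h => (notMem_erase r D) (h3 h)
    have h6 : (insert r T).card = T.card + 1 := card_insert_of_notMem h5
    have h7 : insert r T ⊆ D := insert_subset hr (h3.trans (erase_subset _ _))
    by_cases hp : T.card % 2 = 1
    · obtain ⟨k, hk⟩ : ∃ k, T.card = 2 * k + 1 := ⟨T.card / 2, by omega⟩
      rw [ih k (by omega) (by omega) (by omega) (mem_insert_self _ _),
        FF_eq s hα (n := n - k) (by omega) (by rw [card_sdiff_of_subset h7]; omega)]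
      simp only [g, hk]
      rw [show (2 * k + 1) / 2 = k by omega, show 2 * n + 1 - (2 * k + 1) = 2 * (n - k) by omega,
        smul_mul_smul_comm, if_pos (by omega)]
    · rw [N_CT_odd (by rw [h6, Nat.odd_iff]; omega), zero_mul]
      simp only [g, if_neg hp]
  have tot : ∑ T ∈ (D.erase r).powerset, g T.card =
      ((2 * n + 1).factorial : ℝ) •
        ∑ p ∈ antidiagonal n, Ph α 0 1 2 ψ J p.1 * phi α 0 1 2 p.2 (J p.2) := by
    rw [sum_powerset_apply_card, hE, Nat.sum_antidiagonal_eq_sum_range_succ_mk, smul_sum]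
    have : ∀ (m : ℕ) (f : ℕ → Tri), ∑ j ∈ range (2 * m), f j =
        ∑ k ∈ range m, (f (2 * k) + f (2 * k + 1)) := by
      intro m f
      induction m with
      | zero => simp
      | succ m ih => rw [mul_add, mul_one, sum_range_succ, sum_range_succ, ih, sum_range_succ,
          add_assoc]
    rw [show 2 * n + 1 + 1 = 2 * (n + 1) by ring, this]
    refine sum_congr rfl fun k hk => ?_
    have hk' := mem_range.1 hk
    simp only [g]
    rw [if_neg (by omega), if_pos (by omega), smul_zero, zero_add,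
      show (2 * k + 1) / 2 = k by omega, ← Nat.cast_smul_eq_nsmul ℝ, smul_smul]
    congr 1
    have := Nat.choose_mul_factorial_mul_factorial (show 2 * k + 1 ≤ 2 * n + 1 by omega)
    rw [← this]
    push_cast
    ring
  rw [e2, ← tot, ← add_sum_erase _ _ (mem_powerset_self (D.erase r)),
    ← add_sum_erase _ _ (mem_powerset_self (D.erase r)), sum_congr rfl key, add_left_inj,
    insert_erase hr, sdiff_self, bot_eq_empty, FF_empty, mul_one, hE] at e
  rw [← e]
  simp only [g]
  rw [if_pos (by omega), show (2 * n + 1) / 2 = n by omega, Nat.sub_self, Nat.sub_self,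
    s.phi_zero]
  simp

theorem prod_map_X (s : Multiset σ) :
    (s.map (X : σ → MvPolynomial σ ℝ)).prod = monomial (Multiset.toFinsupp s) 1 := by
  induction s using Multiset.induction_on with
  | empty => simp
  | cons x s ih =>
    rw [Multiset.map_cons, Multiset.prod_cons, ih, ← Multiset.singleton_add,
      Multiset.toFinsupp_add, Multiset.toFinsupp_singleton, X, monomial_mul, one_mul]

theorem Pm_eq : Pm e a b D = monomial (Multiset.toFinsupp ((typ a b D).map e)) 1 := by
  rw [← prod_map_X, typ, Multiset.map_map, Multiset.map_map, Pm, prod_eq_multiset_prod]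
  rfl

theorem tri_inj {A B C A' B' C' : Multiset ℕ} :
    A.map (fun k => ((0 : Fin 3), k)) + B.map (fun k => ((1 : Fin 3), k)) +
        C.map (fun k => ((2 : Fin 3), k)) =
      A'.map (fun k => ((0 : Fin 3), k)) + B'.map (fun k => ((1 : Fin 3), k)) +
        C'.map (fun k => ((2 : Fin 3), k)) ↔ A = A' ∧ B = B' ∧ C = C' := by
  have key : ∀ (i j : Fin 3) (k : ℕ) (S : Multiset ℕ),
      (S.map (fun l => (j, l))).count (i, k) = if i = j then S.count k else 0 := by
    intro i j k S
    split_ifs with h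
    · subst h
      exact Multiset.count_map_eq_count' _ _ (mk_inj i) k
    · refine Multiset.count_eq_zero.2 fun hm => ?_
      obtain ⟨l, -, hl⟩ := Multiset.mem_map.1 hm
      exact h (congrArg Prod.fst hl).symm
  refine ⟨fun h => ⟨?_, ?_, ?_⟩, fun ⟨h1, h2, h3⟩ => by rw [h1, h2, h3]⟩
  · ext k
    simpa [key] using congrArg (Multiset.count ((0 : Fin 3), k)) h
  · ext k
    simpa [key] using congrArg (Multiset.count ((1 : Fin 3), k)) h
  · ext k
    simpa [key] using congrArg (Multiset.count ((2 : Fin 3), k)) h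

open Classical in
theorem coeff_P3 {m : ℕ} (μ ν τ : m.Partition) : coeff (expo3 μ ν τ) (P3 a b d D) =
    if typ a b D = μ.parts ∧ typ b d D = ν.parts ∧ typ d a D = τ.parts then 1 else 0 := by
  rw [P3, Pm_eq, Pm_eq, Pm_eq, monomial_mul, monomial_mul, one_mul, one_mul, coeff_monomial,
    ← Multiset.toFinsupp_add, ← Multiset.toFinsupp_add, expo3]
  refine if_congr ?_ rfl rfl
  rw [Multiset.toFinsupp.injective.eq_iff]
  exact tri_inj

open Classical in
theorem count_eq (hα : α = 1 ∨ α = 2) {θ : ∀ n : ℕ, n.Partition → n.Partition → ℝ}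
    (h : IsJack α θ) (hD : D.card = 2 * n + 2) (hr : r ∈ D) (μ ν τ : (n + 1).Partition) :
    ((2 * n + 1).factorial : ℝ) * hcoef α θ μ ν τ =
      ∑ K ∈ D.powerset with ind K r = α - 1, ∑ a ∈ MM α D K, ∑ b ∈ MM α D K, ∑ d ∈ MM α D K,
        if cmp a b d r = D ∧ typ a b D = μ.parts ∧ typ b d D = ν.parts ∧ typ d a D = τ.parts
          then 1 else 0 := by
  have h0 : 0 < α := by rcases hα with rfl | rfl <;> norm_num
  obtain ⟨ψ, J, s⟩ := exists_sys h0 (n + 1)
  have e1 := s.log_eq (x := 0) (y := 1) (z := 2) h0 h (by decide) (by decide) (by decide) le_rfl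
  have e2 : hcoef α θ μ ν τ = coeff (expo3 μ ν τ) (Cl 0 (Cl 1 (Cl 2 (Ph α 0 1 2 ψ J n)))) := by
    rw [← e1, coeff_smul, hcoef, smul_eq_mul]
  rw [e2, ← smul_eq_mul, ← coeff_smul, ← map_smul, ← map_smul, ← map_smul,
    ← N_CT_eq s hα n.le_succ hD hr, CT]
  simp only [map_sum, coeff_sum]
  refine sum_congr rfl fun K _ => sum_congr rfl fun a ha => sum_congr rfl fun b hb => ?_
  rw [sum_filter]
  refine sum_congr rfl fun d hd => ?_
  rw [Cl3_t3 (mem_MM.1 ha) (mem_MM.1 hb) (mem_MM.1 hd) hr, coeff_P3]
  by_cases hc : cmp a b d r = D <;> simp [hc]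

end Pool.Agent.Lib.MP_fcdd89_co.Mp
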