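import Pool.Agent.Lib.MP_fcdd89_co.Mp.Q
import Pool.Agent.Lib.MP_fcdd89_co.Mp.Eta
import Pool.Agent.Lib.MP_fcdd89_co.Mp.N

/-!
The values at `α = 1` and `α = 2` count rooted maps, and nonnegativity of the coefficients gives
a statistic of non-orientability.
-/

set_option autoImplicit false

open Finset Polynomial

namespace Pool.Agent.Lib.MP_fcdd89_co.Mp

variable {n : ℕ}

open Classical in
theorem count_maps {α : ℝ} (hα : α = 1 ∨ α = 2) {θ : ∀ n : ℕ, n.Partition → n.Partition → ℝ}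
    (h : IsJack α θ) (μ ν τ : (n + 1).Partition) : hcoef α θ μ ν τ =
      (univ.filter fun M : RMap (n + 1) => (α = 1 → M.Orientable) ∧ M.Has μ ν τ).card := by
  have k := sum_lab hα μ ν τ
  rw [sum_congr rfl fun r _ => (count_eq hα h (by simp; ring) (mem_univ r) μ ν τ).symm, sum_const,
    card_univ, Fintype.card_fin, nsmul_eq_mul, ← mul_assoc, ← Nat.cast_mul, sum_boole] at k
  exact mul_left_cancel₀ (Nat.cast_ne_zero.2 (Nat.factorial_ne_zero (2 * (n + 1)))) k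

open Classical in
theorem eta_of_nat (μ ν τ : (n + 1).Partition) (P : ℕ[X])
    (hP : ∀ α : ℝ, 0 < α → ∀ θ, IsJack α θ → hcoef α θ μ ν τ = aeval (α - 1) P) :
    ∃ η : RMap (n + 1) → ℕ, (∀ M, η M = 0 ↔ M.Orientable) ∧
      ∀ α : ℝ, 0 < α → ∀ θ, IsJack α θ →
        hcoef α θ μ ν τ = ∑ M : RMap (n + 1) with M.Has μ ν τ, (α - 1) ^ η M := by
  obtain ⟨θ1, h1⟩ := exists_jack one_pos
  obtain ⟨θ2, h2⟩ := exists_jack two_pos
  have e1 := (hP 1 one_pos θ1 h1).symm.trans (count_maps (.inl rfl) h1 μ ν τ)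
  have e2 := (hP 2 two_pos θ2 h2).symm.trans (count_maps (.inr rfl) h2 μ ν τ)
  have c : ∀ k : ℕ, aeval (k : ℝ) P = (P.eval k : ℕ) := fun k =>
    aeval_algebraMap_apply_eq_algebraMap_eval k P
  obtain ⟨η, h0, hη⟩ := exists_eta (S := {M : RMap (n + 1) // M.Has μ ν τ})
    (fun M => M.1.Orientable) P
    (by
      rw [sub_self, ← Nat.cast_zero, c, ← coeff_zero_eq_eval_zero, Nat.cast_inj] at e1
      rw [e1, ← card_map (Function.Embedding.subtype _)]
      congr 1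
      ext M
      simp [and_comm])
    (by
      rw [show (2 : ℝ) - 1 = (1 : ℕ) by norm_num, c, Nat.cast_inj] at e2
      rw [Fintype.card_subtype]
      simpa using e2)
  refine ⟨fun M => if h : M.Has μ ν τ then η ⟨M, h⟩ else if M.Orientable then 0 else 1,
    fun M => ?_, fun α hα θ h => ?_⟩
  · by_cases h : M.Has μ ν τ <;> simp [h, h0]
  · rw [hP α hα θ h, ← hη, eq_comm,
      sum_subtype (p := fun M : RMap (n + 1) => M.Has μ ν τ) _ (by simp)]
    exact Fintype.sum_congr _ _ fun M => by simp [M.2]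

theorem RMap.Has.unique {M : RMap n} {μ ν τ μ' ν' τ' : n.Partition} (h : M.Has μ ν τ)
    (h' : M.Has μ' ν' τ') : (μ, ν, τ) = (μ', ν', τ') := by
  obtain ⟨L, rfl⟩ := Quotient.exists_rep M
  rw [Nat.Partition.ext (h.1.symm.trans h'.1), Nat.Partition.ext (h.2.1.symm.trans h'.2.1),
    Nat.Partition.ext (h.2.2.symm.trans h'.2.2)]

open Classical in
/-- One statistic for all triples whose coefficient is a polynomial over the naturals. -/
theorem final : ∃ η : ∀ n : ℕ, RMap n → ℕ, (∀ n M, η n M = 0 ↔ M.Orientable) ∧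
    ∀ (n : ℕ) (μ ν τ : n.Partition), 1 ≤ n →
      (∃ P : ℕ[X], ∀ α : ℝ, 0 < α → ∀ θ, IsJack α θ → hcoef α θ μ ν τ = aeval (α - 1) P) →
      ∀ α : ℝ, 0 < α → ∀ θ, IsJack α θ →
        hcoef α θ μ ν τ = ∑ M : RMap n with M.Has μ ν τ, (α - 1) ^ η n M := by
  have ex : ∀ (n : ℕ) (t : n.Partition × n.Partition × n.Partition), ∃ η : RMap n → ℕ,
      (∀ M, η M = 0 ↔ M.Orientable) ∧ (1 ≤ n → (∃ P : ℕ[X], ∀ α : ℝ, 0 < α → ∀ θ, IsJack α θ →
        hcoef α θ t.1 t.2.1 t.2.2 = aeval (α - 1) P) → ∀ α : ℝ, 0 < α → ∀ θ, IsJack α θ →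
          hcoef α θ t.1 t.2.1 t.2.2 = ∑ M : RMap n with M.Has t.1 t.2.1 t.2.2, (α - 1) ^ η M) :=
    fun n t => by
      by_cases h : 1 ≤ n ∧ ∃ P : ℕ[X], ∀ α : ℝ, 0 < α → ∀ θ, IsJack α θ →
        hcoef α θ t.1 t.2.1 t.2.2 = aeval (α - 1) P
      · obtain ⟨hn, P, hP⟩ := h
        obtain ⟨n, rfl⟩ := Nat.exists_eq_add_of_le' hn
        obtain ⟨η, a, b⟩ := eta_of_nat _ _ _ P hP
        exact ⟨η, a, fun _ _ => b⟩
      · exact ⟨fun M => if M.Orientable then 0 else 1, fun M => by simp,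
          fun a b => absurd ⟨a, b⟩ h⟩
  choose η h0 hη using ex
  refine ⟨fun n M => if h : ∃ t : n.Partition × n.Partition × n.Partition, M.Has t.1 t.2.1 t.2.2
    then η n h.choose M else if M.Orientable then 0 else 1, fun n M => ?_,
    fun n μ ν τ hn hP α hα θ h => ?_⟩
  · dsimp only
    split_ifs with h k <;> simp [*]
  · rw [hη n (μ, ν, τ) hn hP α hα θ h]
    refine sum_congr rfl fun M hM => ?_
    have k : ∃ t : n.Partition × n.Partition × n.Partition, M.Has t.1 t.2.1 t.2.2 :=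
      ⟨(μ, ν, τ), (mem_filter.1 hM).2⟩
    dsimp only
    rw [dif_pos k, show k.choose = (μ, ν, τ) from k.choose_spec.unique (mem_filter.1 hM).2]

end Pool.Agent.Lib.MP_fcdd89_co.Mp
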