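import Pool.Agent.Lib.MP_fcdd89_co.Mp.Surg

/-!
Closing the three marked orbits, and the empty and odd ground sets.
-/

set_option autoImplicit false

open Finset MvPolynomial Equiv

namespace Pool.Agent.Lib.MP_fcdd89_co.Mp

variable {V : Type} [Fintype V] [DecidableEq V] {α : ℝ} {D K : Finset V} {a : Perm V}

open Classical in
omit [Fintype V] in
theorem sum_root (ha : Mt D (ind K) α a) :
    ∑ v ∈ D, (if ind K v = α - 1 then (1 : ℝ) else 0) = α * (D.card / 2 : ℕ) := by
  have h : ∀ u ∈ D, (if ind K u = α - 1 then (1 : ℝ) else 0) = ind K (a u) := fun u hu => by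
    have := ha.col u hu
    by_cases e : a u ∈ K
    · have e' : ind K (a u) = 1 := if_pos e
      rw [if_pos (by linarith), e']
    · have e' : ind K (a u) = 0 := if_neg e
      rw [if_neg fun h => by linarith, e']
  refine sum_col ha.inv ha.mem ha.fpf fun u hu => ?_
  rw [h u hu, h _ (ha.mem u hu), ha.inv, add_comm, ha.col u hu]

theorem sum_Cl3 : ∑ v ∈ D, Cl 0 (Cl 1 (Cl 2 (TT α D v))) =
    (α * (D.card / 2 : ℕ)) • FF α D := by
  classical
  simp only [TT, FF, map_sum, smul_sum]
  simp only [sum_filter]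
  rw [sum_comm]
  refine sum_congr rfl fun K _ => ?_
  have : ∀ v ∈ D, (if ind K v = α - 1 then ∑ a ∈ MM α D K, ∑ b ∈ MM α D K, ∑ d ∈ MM α D K,
      Cl 0 (Cl 1 (Cl 2 (t3 a b d D v))) else 0) = ∑ a ∈ MM α D K, ∑ b ∈ MM α D K, ∑ d ∈ MM α D K,
      (if ind K v = α - 1 then (1 : ℝ) else 0) • P3 a b d D := fun v hv => by
    split_ifs
    · refine sum_congr rfl fun a ha => sum_congr rfl fun b hb => sum_congr rfl fun d hd => ?_
      rw [Cl3_t3 (mem_MM.1 ha) (mem_MM.1 hb) (mem_MM.1 hd) hv, one_smul]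
    · simp
  rw [sum_congr rfl this, sum_comm]
  refine sum_congr rfl fun a ha => ?_
  rw [sum_comm]
  refine sum_congr rfl fun b _ => ?_
  rw [sum_comm]
  refine sum_congr rfl fun d _ => ?_
  rw [← sum_smul, sum_root (mem_MM.1 ha)]

theorem MM_empty : MM α (∅ : Finset V) K = {1} := by
  ext b
  rw [mem_MM, mem_singleton]
  constructor
  · exact fun h => Equiv.ext fun u => h.off u (notMem_empty u)
  · rintro rfl
    exact ⟨fun _ => rfl, by simp, fun _ _ => rfl, by simp⟩

theorem FF_empty : FF α (∅ : Finset V) = 1 := by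
  simp [FF, MM_empty, P3, Pm_empty]

theorem MM_odd (h : Odd D.card) : MM α D K = ∅ := by
  refine eq_empty_of_forall_notMem fun b hb => ?_
  have hb := mem_MM.1 hb
  have := card_even hb.inv hb.mem hb.fpf
  obtain ⟨k, hk⟩ := h
  omega

end Pool.Agent.Lib.MP_fcdd89_co.Mp
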