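import Pool.Agent.Lib.MP_fcdd89_co.Mp.Defs

/-!
Bijections on one matching: rewiring at the root and adding a new pair.
-/

set_option autoImplicit false
set_option linter.unusedSectionVars false

open Finset MvPolynomial Equiv

namespace Pool.Agent.Lib.MP_fcdd89_co.Mp

variable {V : Type} [Fintype V] [DecidableEq V]
  {α : ℝ} {D K : Finset V} {b : Perm V} {r u v : V} {c : V → ℝ}

theorem S_ind_one : ind K v = 1 ↔ v ∈ K := by
  by_cases h : v ∈ K <;> simp [ind, h]

theorem S_ind_congr {K' : Finset V} (h : v ∈ K' ↔ v ∈ K) : ind K' v = ind K v := by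
  simp only [ind, h]

theorem Mt.S_conj (h : Mt D c α b) {x y : V} (hx : x ∈ D) (hy : y ∈ D) (e : c x = c y) :
    Mt D c α (swap x y * b * swap x y) := by
  have m : ∀ p, swap x y p ∈ D ↔ p ∈ D := fun p => by
    rw [swap_apply_def]; split_ifs with h1 h2 <;> simp [*]
  have k : ∀ p, c (swap x y p) = c p := fun p => by
    rw [swap_apply_def]; split_ifs with h1 h2 <;> simp [*]
  refine ⟨fun p => ?_, fun p hp e => ?_, fun p hp => ?_, fun p hp => ?_⟩
  · simp only [Perm.mul_apply, swap_apply_self, h.inv]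
  · simp only [Perm.mul_apply] at e
    exact h.fpf _ ((m p).2 hp) (by rw [← swap_apply_self x y (b _), e])
  · simp only [Perm.mul_apply]
    rw [h.off _ fun q => hp ((m p).1 q), swap_apply_self]
  · simp only [Perm.mul_apply]
    rw [k, ← k p, h.col _ ((m p).2 hp)]

theorem S_rew_root (h : b r ≠ r) (hv : v ≠ r) : rew r b v r = v := by
  simp only [rew, Perm.mul_apply]
  rw [swap_apply_of_ne_of_ne h.symm hv.symm, swap_apply_left]

theorem S_rew_rew (h : b r ≠ r) (hv : v ≠ r) : rew r (rew r b v) (b r) = b := by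
  rw [rew, S_rew_root h hv, rew, swap_comm v]
  simp only [← mul_assoc, swap_mul_self, one_mul]
  rw [mul_assoc, swap_mul_self, mul_one]

theorem Mt.S_root_mem (h : Mt D (ind K) α b) (hr : r ∈ D) (hc : ind K r = α - 1) : b r ∈ K :=
  S_ind_one.1 (by linarith [h.col r hr])

theorem Mt.S_rew (h : Mt D (ind K) α b) (hr : r ∈ D) (hc : ind K r = α - 1) (hv : v ∈ D)
    (hk : v ∈ K) : Mt D (ind K) α (rew r b v) :=
  h.S_conj (h.mem r hr) hv (by rw [S_ind_one.2 hk, S_ind_one.2 (h.S_root_mem hr hc)])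

theorem sum_rew {M : Type} [AddCommGroup M] [Module ℝ M] (hr : r ∈ D) (hc : ind K r = α - 1)
    (f : Perm V → Perm V → M) :
    ∑ b ∈ MM α D K, ∑ v ∈ (D.erase r).erase (b r), ind K v • f b (rew r b v) =
      ∑ b ∈ MM α D K, ∑ v ∈ (D.erase r).erase (b r), ind K v • f (rew r b v) b := by
  simp only [ind, ite_smul, one_smul, zero_smul, ← sum_filter]
  rw [sum_sigma', sum_sigma']
  have key : ∀ p ∈ (MM α D K).sigma fun b => ((D.erase r).erase (b r)).filter (· ∈ K),
      (⟨rew r p.1 p.2, p.1 r⟩ : Σ _ : Perm V, V) ∈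
        ((MM α D K).sigma fun b => ((D.erase r).erase (b r)).filter (· ∈ K)) ∧
      rew r p.1 p.2 r = p.2 ∧ rew r (rew r p.1 p.2) (p.1 r) = p.1 := by
    rintro ⟨b, v⟩ hp
    simp only [mem_sigma, mem_filter, mem_erase, mem_MM] at hp ⊢
    obtain ⟨h, ⟨h1, h2, h3⟩, h4⟩ := hp
    have := h.fpf r hr
    refine ⟨⟨h.S_rew hr hc h3 h4, ⟨?_, this, h.mem r hr⟩, h.S_root_mem hr hc⟩, S_rew_root this h2,
      S_rew_rew this h2⟩
    rw [S_rew_root this h2]
    exact h1.symm
  refine sum_nbij' (fun p => ⟨rew r p.1 p.2, p.1 r⟩) (fun p => ⟨rew r p.1 p.2, p.1 r⟩)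
    (fun p hp => (key p hp).1) (fun p hp => (key p hp).1) (fun p hp => ?_) (fun p hp => ?_)
    fun p hp => ?_
  · simp only [(key p hp).2.1, (key p hp).2.2]
  · simp only [(key p hp).2.1, (key p hp).2.2]
  · simp only [(key p hp).2.2]

theorem Mt.S_add {K' : Finset V} (h : Mt D (ind K) α b) (hr : r ∉ D) (hu : u ∉ D)
    (hru : r ≠ u) (hK : ∀ p ∈ D, p ∈ K' ↔ p ∈ K) (h1 : ind K' r = α - 1) (h2 : u ∈ K') :
    Mt (insert r (insert u D)) (ind K') α (b * swap r u) := by
  have er : (b * swap r u) r = u := by rw [Perm.mul_apply, swap_apply_left, h.off u hu]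
  have eu : (b * swap r u) u = r := by rw [Perm.mul_apply, swap_apply_right, h.off r hr]
  have eo : ∀ p, p ≠ r → p ≠ u → (b * swap r u) p = b p := fun p p1 p2 => by
    rw [Perm.mul_apply, swap_apply_of_ne_of_ne p1 p2]
  have hD : ∀ p ∈ D, (b * swap r u) p = b p := fun p hp =>
    eo p (fun e => hr (e ▸ hp)) fun e => hu (e ▸ hp)
  have i2 := S_ind_one.2 h2
  refine ⟨fun p => ?_, fun p hp => ?_, fun p hp => ?_, fun p hp => ?_⟩
  · by_cases p1 : p = r
    · rw [p1, er, eu]
    by_cases p2 : p = u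
    · rw [p2, eu, er]
    rw [eo p p1 p2, eo _ (fun e => p1 (b.injective (e.trans (h.off r hr).symm)))
      (fun e => p2 (b.injective (e.trans (h.off u hu).symm))), h.inv]
  · simp only [mem_insert] at hp
    rcases hp with rfl | rfl | hp
    · rw [er]; exact hru.symm
    · rw [eu]; exact hru
    · rw [hD p hp]; exact h.fpf p hp
  · simp only [mem_insert, not_or] at hp
    rw [eo p hp.1 hp.2.1, h.off p hp.2.2]
  · simp only [mem_insert] at hp
    rcases hp with rfl | rfl | hp
    · rw [er]; linarith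
    · rw [eu]; linarith
    · rw [hD p hp, S_ind_congr (hK p hp), S_ind_congr (hK _ (h.mem p hp)), h.col p hp]

theorem Mt.S_del {K' : Finset V} (h : Mt (insert r (insert u D)) (ind K') α b) (e : b r = u)
    (hr : r ∉ D) (hu : u ∉ D) (hK : ∀ p ∈ D, p ∈ K' ↔ p ∈ K) :
    Mt D (ind K) α (b * swap r u) := by
  have e' : b u = r := by rw [← e, h.inv]
  have er : (b * swap r u) r = r := by rw [Perm.mul_apply, swap_apply_left, e']
  have eu : (b * swap r u) u = u := by rw [Perm.mul_apply, swap_apply_right, e]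
  have eo : ∀ p, p ≠ r → p ≠ u → (b * swap r u) p = b p := fun p p1 p2 => by
    rw [Perm.mul_apply, swap_apply_of_ne_of_ne p1 p2]
  have n1 : ∀ p, p ≠ u → b p ≠ r := fun p p2 q => p2 (b.injective (q.trans e'.symm))
  have n2 : ∀ p, p ≠ r → b p ≠ u := fun p p1 q => p1 (b.injective (q.trans e.symm))
  have d1 : ∀ p ∈ D, p ≠ r := fun p hp e => hr (e ▸ hp)
  have d2 : ∀ p ∈ D, p ≠ u := fun p hp e => hu (e ▸ hp)
  have m : ∀ p ∈ D, p ∈ insert r (insert u D) := fun p hp =>
    mem_insert_of_mem (mem_insert_of_mem hp)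
  refine ⟨fun p => ?_, fun p hp => ?_, fun p hp => ?_, fun p hp => ?_⟩
  · by_cases p1 : p = r
    · rw [p1, er, er]
    by_cases p2 : p = u
    · rw [p2, eu, eu]
    rw [eo p p1 p2, eo _ (n1 p p2) (n2 p p1), h.inv]
  · rw [eo p (d1 p hp) (d2 p hp)]
    exact h.fpf p (m p hp)
  · by_cases p1 : p = r
    · rw [p1, er]
    by_cases p2 : p = u
    · rw [p2, eu]
    rw [eo p p1 p2, h.off p (by simp [p1, p2, hp])]
  · have : b p ∈ D := by
      have := h.mem p (m p hp)
      simp only [mem_insert] at this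
      exact (this.resolve_left (n1 p (d2 p hp))).resolve_left (n2 p (d1 p hp))
    rw [eo p (d1 p hp) (d2 p hp), ← S_ind_congr (hK p hp), ← S_ind_congr (hK _ this),
      h.col p (m p hp)]

theorem sum_fix {M : Type} [AddCommMonoid M] {K' : Finset V} (hr : r ∉ D) (hu : u ∉ D)
    (hru : r ≠ u) (hK : ∀ p ∈ D, p ∈ K' ↔ p ∈ K) (h1 : ind K' r = α - 1) (h2 : u ∈ K')
    (g : Perm V → M) :
    ∑ b ∈ MM α (insert r (insert u D)) K' with b r = u, g b =
      ∑ b ∈ MM α D K, g (b * swap r u) := by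
  have s : ∀ b : Perm V, b * swap r u * swap r u = b := fun b => by
    rw [mul_assoc, swap_mul_self, mul_one]
  refine sum_nbij' (· * swap r u) (· * swap r u) (fun b hb => ?_) (fun b hb => ?_)
    (fun b _ => s b) (fun b _ => s b) fun b _ => by rw [s]
  · obtain ⟨p, q⟩ := mem_filter.1 hb
    exact mem_MM.2 ((mem_MM.1 p).S_del q hr hu hK)
  · have h := mem_MM.1 hb
    exact mem_filter.2 ⟨mem_MM.2 (h.S_add hr hu hru hK h1 h2), by
      rw [Perm.mul_apply, swap_apply_left, h.off u hu]⟩

theorem sum_all {M : Type} [AddCommGroup M] [Module ℝ M] {K' : Finset V} (hr : r ∉ D) (hu : u ∉ D)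
    (hru : r ≠ u) (hK : ∀ p ∈ D, p ∈ K' ↔ p ∈ K) (h1 : ind K' r = α - 1) (h2 : u ∈ K')
    (g : Perm V → M) :
    ∑ b ∈ MM α (insert r (insert u D)) K', g b = ∑ b ∈ MM α D K,
      (g (b * swap r u) + ∑ v ∈ D, ind K v • g (rew r (b * swap r u) v)) := by
  have hm : r ∈ insert r (insert u D) := mem_insert_self _ _
  have he : (insert r (insert u D)).erase r = insert u D := erase_insert (by simp [hr, hru])
  have := sum_rew hm h1 fun b b' => if b' r = u then g b else 0
  rw [he] at this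
  rw [← sum_fix hr hu hru hK h1 h2 fun b => g b + ∑ v ∈ D, ind K v • g (rew r b v),
    sum_add_distrib, ← sum_filter_add_sum_filter_not _ fun b : Perm V => b r = u]
  congr 1
  rw [sum_filter, sum_filter]
  refine (sum_congr rfl fun b hb => ?_).trans (this.trans (sum_congr rfl fun b _ => ?_))
  · have h := (mem_MM.1 hb).fpf r hm
    rw [sum_congr rfl (g := fun v => if v = u then g b else 0) fun v hv => by
      have : v ≠ r := by
        have q := (mem_erase.1 hv).2
        rw [← he] at q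
        exact (mem_erase.1 q).1
      rw [S_rew_root h this]
      split_ifs with e
      · rw [e, S_ind_one.2 h2, one_smul]
      · rw [smul_zero], sum_ite_eq']
    simp only [mem_erase, mem_insert, true_or, and_true, ne_comm, ne_eq]
  · split_ifs with e
    · rw [e, erase_insert hu]
      exact sum_congr rfl fun v hv => by rw [S_ind_congr (hK v hv)]
    · simp

end Pool.Agent.Lib.MP_fcdd89_co.Mp
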