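import Pool.Agent.Lib.MP_fcdd89_co.Mp.Surg
import Pool.Agent.Lib.MP_fcdd89_co.Mp.Rew

/-!
Removal of the root pair from a triple of matchings whose first root orbit has two points.
-/

set_option autoImplicit false
set_option linter.unusedSectionVars false

open Finset MvPolynomial Equiv

namespace Pool.Agent.Lib.MP_fcdd89_co.Mp

variable {V : Type} [Fintype V] [DecidableEq V]
  {α : ℝ} {D K K' : Finset V} {a b d : Perm V} {r u v : V} {c : V → ℝ}

theorem r_free (k : Fin 3) (hk : k ≠ 0) :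
    Free ((0 : Fin 3), 0) (ty (Prod.mk k) a b D r : Tri) :=
  free_ty fun _ h => hk (congrArg Prod.fst h)

theorem r_P0_t3 : P0 ((0 : Fin 3), 0) (t3 a b d D r) =
    P0 ((0 : Fin 3), 0) (ty (Prod.mk 0) a b D r) *
      (ty (Prod.mk 1) b d D r * ty (Prod.mk 2) d a D r) := by
  rw [t3, mul_assoc, P0_mul_free _ ((r_free 1 (by decide)).mul (r_free 2 (by decide)))]

theorem r_Cl0_t3 (ha : Mt D c α a) (hb : Mt D c α b) (hv : v ∈ D) : Cl 0 (t3 a b d D v) =
    Pm (Prod.mk 0) a b D * (ty (Prod.mk 1) b d D v * ty (Prod.mk 2) d a D v) := by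
  rw [t3, mul_assoc, Cl_mul_free _ _ ((r_free 1 (by decide)).mul (r_free 2 (by decide))),
    Cl_apply, Bt_ty (mk_inj 0) ha hb hv]

theorem r_ty_root {σ : Type} [DecidableEq σ] {e : ℕ → σ} (hb : ∀ u, b (b u) = u)
    (hd : ∀ u, d (d u) = u) : ty e b d D (d v) = ty e b d D v := by
  rw [ty, ty, orb_eq hb hd (b_orb (self_orb b d v))]

open Classical in
theorem r_change (ha : Mt D (ind K) α a) (hb : Mt D (ind K) α b) (hd : Mt D (ind K) α d) :
    ∑ v ∈ D, ind K v • (Pm (Prod.mk 0) a b D *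
        (X ((1 : Fin 3), 0) * ty (Prod.mk 1) b d D v * (X ((2 : Fin 3), 0) *
          ty (Prod.mk 2) d a D v)) : Tri) =
      X ((1 : Fin 3), 0) * (X ((2 : Fin 3), 0) *
        ∑ v ∈ D, if ind K v = α - 1 then Cl 0 (t3 a b d D v) else 0) := by
  rw [mul_sum, mul_sum]
  refine sum_nbij' d d hd.mem hd.mem (fun u _ => hd.inv u) (fun u _ => hd.inv u) fun v hv => ?_
  have h := hd.col v hv
  by_cases p : v ∈ K
  · have q : ind K v = 1 := by simp [ind, p]
    rw [if_pos (by linarith), q, one_smul, r_Cl0_t3 ha hb (hd.mem v hv), r_ty_root hb.inv hd.inv,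
      ty_comm (a := d) (r := d v), r_ty_root ha.inv hd.inv, ty_comm (a := a) (b := d)]
    ring
  · have q : ind K v = 0 := by simp [ind, p]
    rw [if_neg (fun w => by linarith), q, zero_smul, mul_zero, mul_zero]

open Classical in
theorem r_fix (hr : r ∉ D) (hu : u ∉ D) (hru : r ≠ u) (hK : ∀ p ∈ D, p ∈ K' ↔ p ∈ K)
    (h1 : ind K' r = α - 1) (h2 : u ∈ K') :
    ∑ a ∈ MM α (insert r (insert u D)) K' with a r = u,
      ∑ b ∈ MM α (insert r (insert u D)) K' with b r = u, ∑ d ∈ MM α (insert r (insert u D)) K',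
        P0 ((0 : Fin 3), 0) (t3 a b d (insert r (insert u D)) r) =
    ∑ a ∈ MM α D K, ∑ b ∈ MM α D K, ∑ d ∈ MM α D K, (P3 a b d D +
      X ((1 : Fin 3), 0) * (X ((2 : Fin 3), 0) *
        ∑ v ∈ D, if ind K v = α - 1 then Cl 0 (t3 a b d D v) else 0)) := by
  rw [sum_fix hr hu hru hK h1 h2]
  refine sum_congr rfl fun a ha => ?_
  rw [sum_fix hr hu hru hK h1 h2]
  refine sum_congr rfl fun b hb => ?_
  rw [sum_all hr hu hru hK h1 h2]
  refine sum_congr rfl fun d hd => ?_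
  rw [mem_MM] at ha hb hd
  have f : P0 ((0 : Fin 3), 0) (Pm (Prod.mk 0) a b D : Tri) = Pm (Prod.mk 0) a b D :=
    P0_free (Pm_free (mk_inj 0) hb.fpf)
  rw [← r_change ha hb hd, r_P0_t3, ty_new ha hb hr hu hru, ty_new hb hd hr hu hru,
    ty_new hd ha hr hu hru, f, P3, mul_assoc]
  congr 1
  refine sum_congr rfl fun v hv => ?_
  rw [r_P0_t3, ty_new ha hb hr hu hru, f, ty_rew hb hd hr hu hru hv,
    ty_comm (b := a * swap r u), ty_rew ha hd hr hu hru hv, ty_comm (a := a) (b := d)]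

open Classical in
theorem r_split (hr : r ∈ D) :
    ∑ a ∈ MM α D K, ∑ b ∈ MM α D K, ∑ d ∈ MM α D K, P0 ((0 : Fin 3), 0) (t3 a b d D r) =
      ∑ u ∈ D.erase r, ∑ a ∈ MM α D K with a r = u, ∑ b ∈ MM α D K with b r = u,
        ∑ d ∈ MM α D K, P0 ((0 : Fin 3), 0) (t3 a b d D r) := by
  rw [← sum_fiberwise_of_maps_to (g := fun a : Perm V => a r) (t := D.erase r) fun a ha =>
    mem_erase.2 ⟨(mem_MM.1 ha).fpf r hr, (mem_MM.1 ha).mem r hr⟩]
  refine sum_congr rfl fun u _ => sum_congr rfl fun a ha => ?_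
  rw [sum_filter]
  refine sum_congr rfl fun b hb => ?_
  split_ifs with h
  · rfl
  · refine sum_eq_zero fun d _ => ?_
    rw [r_P0_t3, P0_ty (mk_inj 0) (mem_MM.1 (mem_filter.1 ha).1) (mem_MM.1 hb) hr
      fun w => h (w ▸ (mem_filter.1 ha).2), zero_mul]

open Classical in
theorem r_sets {M : Type} [AddCommMonoid M] (hα : α = 1 ∨ α = 2) (hr : r ∉ D) (hu : u ∉ D)
    (hru : r ≠ u) (g g' : Finset V → M)
    (h0 : ∀ K', ind K' r = α - 1 → u ∉ K' → g K' = 0)
    (h : ∀ K K', (∀ p ∈ D, p ∈ K' ↔ p ∈ K) → ind K' r = α - 1 → u ∈ K' → g K' = g' K) :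
    ∑ K' ∈ (insert r (insert u D)).powerset with ind K' r = α - 1, g K' =
      ∑ K ∈ D.powerset, g' K := by
  have hr' : r ∉ insert u D := by simp [hr, hru]
  rw [sum_filter, sum_powerset_insert hr', sum_powerset_insert hu, sum_powerset_insert hu,
    ← sum_add_distrib, ← sum_add_distrib, ← sum_add_distrib]
  refine sum_congr rfl fun K hK => ?_
  have a1 : r ∉ K := fun w => hr (mem_powerset.1 hK w)
  have a2 : u ∉ K := fun w => hu (mem_powerset.1 hK w)
  have b1 : ∀ p ∈ D, p ≠ r := fun p hp w => hr (w ▸ hp)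
  have b2 : ∀ p ∈ D, p ≠ u := fun p hp w => hu (w ▸ hp)
  have i1 : ind K r = 0 := by simp [ind, a1]
  have i2 : ind (insert u K) r = 0 := by simp [ind, a1, hru]
  have i3 : ind (insert r K) r = 1 := by simp [ind]
  have i4 : ind (insert r (insert u K)) r = 1 := by simp [ind]
  rcases hα with rfl | rfl
  · rw [if_pos (by rw [i1]; ring), if_pos (by rw [i2]; ring), if_neg (by rw [i3]; norm_num),
      if_neg (by rw [i4]; norm_num), h0 K (by rw [i1]; ring) a2,
      h K _ (fun p hp => by simp [b2 p hp]) (by rw [i2]; ring) (mem_insert_self _ _)]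
    simp
  · rw [if_neg (by rw [i1]; norm_num), if_neg (by rw [i2]; norm_num),
      if_pos (by rw [i3]; norm_num), if_pos (by rw [i4]; norm_num),
      h0 _ (by rw [i3]; norm_num) (by simp [a2, hru.symm]),
      h K _ (fun p hp => by simp [b1 p hp, b2 p hp]) (by rw [i4]; norm_num) (by simp)]
    simp

theorem TT_P0 (hα : α = 1 ∨ α = 2) (hr : r ∈ D) :
    P0 ((0 : Fin 3), 0) (TT α D r) = ∑ u ∈ D.erase r, (FF α ((D.erase r).erase u) +
      X ((1 : Fin 3), 0) * (X ((2 : Fin 3), 0) *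
        ∑ v ∈ (D.erase r).erase u, Cl 0 (TT α ((D.erase r).erase u) v))) := by
  classical
  rw [TT]
  simp only [map_sum]
  rw [sum_congr rfl fun K _ => r_split hr, sum_comm]
  refine sum_congr rfl fun u hu => ?_
  obtain ⟨E, hE⟩ : ∃ E, E = (D.erase r).erase u := ⟨_, rfl⟩
  have e1 : r ∉ E := by simp [hE]
  have e2 : u ∉ E := by simp [hE]
  have e3 : r ≠ u := (mem_erase.1 hu).1.symm
  have e4 : D = insert r (insert u E) := by rw [hE, insert_erase hu, insert_erase hr]
  rw [← hE]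
  subst e4
  rw [r_sets hα e1 e2 e3 _ _ (fun K' h1 h2 => sum_eq_zero fun a ha => by
    have := (mem_MM.1 (mem_filter.1 ha).1).col r hr
    rw [(mem_filter.1 ha).2, h1, ind, if_neg h2] at this
    linarith) fun K K' hK h1 h2 => r_fix e1 e2 e3 hK h1 h2]
  simp only [sum_add_distrib, ← mul_sum, FF, TT, map_sum, sum_filter]
  congr 3
  rw [sum_comm (s := E)]
  refine sum_congr rfl fun K _ => ?_
  simp only [sum_comm (t := E)]
  refine sum_congr rfl fun v _ => ?_
  split_ifs <;> simp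

end Pool.Agent.Lib.MP_fcdd89_co.Mp
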