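import Pool.Agent.Lib.MP_fcdd89_co.Mp.L
import Pool.Agent.Lib.MP_fcdd89_co.Mp.R
import Pool.Agent.Lib.MP_fcdd89_co.Mp.K

/-!
The sums over triples of matchings are the Jack kernels at `α = 1` and `α = 2`.
-/

set_option autoImplicit false

open Finset MvPolynomial Equiv

namespace Pool.Agent.Lib.MP_fcdd89_co.Mp

variable {V : Type} [Fintype V] [DecidableEq V] {α : ℝ} {D : Finset V} {r : V}

theorem IW_poly {d : ℤ} {f : ℝ → ℝ} (h : IW d f) :
    ∃ P : Polynomial ℝ, ∀ α, 0 < α → f α = P.eval α := by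
  induction h with
  | zero d => exact ⟨0, by simp⟩
  | mono i j => exact ⟨(Polynomial.X - 1) ^ i * Polynomial.X ^ j, by simp⟩
  | sub _ _ a b =>
    obtain ⟨P, hP⟩ := a
    obtain ⟨Q, hQ⟩ := b
    exact ⟨P - Q, fun α hα => by simp [hP α hα, hQ α hα]⟩
  | congr _ c a =>
    obtain ⟨P, hP⟩ := a
    exact ⟨P, fun α hα => by rw [c α hα, hP α hα]⟩

theorem uniq (hα : 0 < α) {f : Tri} (h0 : P0 ((0 : Fin 3), 0) f = 0)
    (he : Lx α (Prod.mk 0) f = Lx α (Prod.mk 1) f) : f = 0 := by
  classical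
  have key : IT 0 fun β => if β = α then f else 0 := by
    refine it_step (x := 0) (y := 1) (by decide) (Q := fun _ => 0)
      ⟨f.support, fun β _ => ?_⟩ (IT.zero.congr fun β _ => ?_) IT.zero fun β _ => ?_
    · dsimp only
      split_ifs <;> simp
    · split_ifs <;> simp [h0]
    · split_ifs with h
      · rw [h, he, sub_self]
      · simp
  ext m
  obtain ⟨P, hP⟩ := IW_poly (key m)
  have : P = 0 := Polynomial.eq_zero_of_infinite_isRoot _ ((Set.Ioi_infinite α).mono fun β hβ => by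
    have b : α < β := hβ
    have := hP β (hα.trans b)
    exact this.symm.trans (by simp [b.ne']))
  simpa [this] using hP α hα

variable {N n : ℕ} {ψ J : ℕ → Ix → R}

theorem phi_Cl3 (s : Sys α N ψ J) (hα : 0 < α) (hn : n + 1 ≤ N) :
    (α * (n + 1 : ℕ)) • phi α 0 1 2 (n + 1) (J (n + 1)) =
      Cl 0 (Cl 1 (Cl 2 (T3 α 0 1 2 n (ψ n)))) := by
  have m : phi α 0 1 2 (n + 1) (J (n + 1)) ∈ Hz 0 (n + 1) := by
    have := (s.lev _ hn).phi_mem (x := 1) (y := 2) (z := 0) (by decide) (by decide)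
    convert this using 1
    simp only [phi]
    exact sum_congr rfl fun l _ => by ring_nf
  rw [← Bt_Dr 0 m, ← Lx_free α m.1, (s.link n hn).Lx_phi hα (s.lev n (by omega)) (s.lev _ hn)
    (by decide) (by decide) (by decide)]
  rfl

theorem FF_TT (s : Sys α N ψ J) (hα : α = 1 ∨ α = 2) (hn : n ≤ N) :
    (∀ D : Finset V, D.card = 2 * n → FF α D = ((2 * n).factorial : ℝ) • phi α 0 1 2 n (J n)) ∧
    ∀ (D : Finset V) (r : V), D.card = 2 * n + 2 → r ∈ D →
      TT α D r = ((2 * n + 1).factorial : ℝ) • T3 α 0 1 2 n (ψ n) := by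
  have h0 : 0 < α := by rcases hα with rfl | rfl <;> norm_num
  have T : ∀ {n : ℕ} {D : Finset V} {r : V}, n ≤ N → r ∈ D →
      P0 ((0 : Fin 3), 0) (TT α D r) =
        ((2 * n + 1).factorial : ℝ) • P0 ((0 : Fin 3), 0) (T3 α 0 1 2 n (ψ n)) →
      TT α D r = ((2 * n + 1).factorial : ℝ) • T3 α 0 1 2 n (ψ n) := fun hn hr h =>
    sub_eq_zero.1 (uniq h0 (by rw [map_sub, map_smul, h, sub_self]) (by
      rw [map_sub, map_sub, map_smul, map_smul, TT_L hr,
        (s.lev _ hn).Lx_eq (z := 2) (by decide) (by decide) (by decide)]))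
  induction n with
  | zero =>
    refine ⟨fun D hD => ?_, fun D r hD hr => T hn hr ?_⟩
    · rw [card_eq_zero.1 hD, FF_empty, s.phi_zero]
      simp
    · rw [TT_P0 hα hr, sum_congr rfl (g := fun _ => 1) fun u hu => by
        have : ((D.erase r).erase u).card = 0 := by
          rw [card_erase_of_mem hu, card_erase_of_mem hr, hD]
        rw [card_eq_zero.1 this, FF_empty]
        simp, sum_const, card_erase_of_mem hr, hD, s.T3_zero, P0_free (Free.one _)]
      simp
  | succ n ih =>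
    obtain ⟨-, ih⟩ := ih (by omega)
    have F : ∀ D : Finset V, D.card = 2 * (n + 1) →
        FF α D = ((2 * (n + 1)).factorial : ℝ) • phi α 0 1 2 (n + 1) (J (n + 1)) := fun D hD => by
      have a := sum_Cl3 (α := α) (D := D)
      rw [sum_congr rfl fun v hv => by rw [ih D v hD hv, map_smul, map_smul, map_smul,
        ← phi_Cl3 s h0 hn], sum_const, hD, Nat.mul_div_cancel_left _ two_pos,
        ← Nat.cast_smul_eq_nsmul ℝ, smul_smul, smul_comm] at a
      rw [← smul_right_injective Tri (mul_pos h0 (by positivity)).ne' a,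
        show 2 * (n + 1) = 2 * n + 1 + 1 from rfl, Nat.factorial_succ (2 * n + 1), Nat.cast_mul]
    refine ⟨F, fun D r hD hr => T hn hr ?_⟩
    rw [TT_P0 hα hr, sum_congr rfl (g := fun _ => ((2 * (n + 1)).factorial : ℝ) •
      P0 ((0 : Fin 3), 0) (T3 α 0 1 2 (n + 1) (ψ (n + 1)))) fun u hu => by
        have c : ((D.erase r).erase u).card = 2 * n + 2 := by
          rw [card_erase_of_mem hu, card_erase_of_mem hr, hD]
          omega
        rw [F _ c, sum_congr rfl fun v hv => by rw [ih _ v c hv, map_smul], sum_const, c,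
          ← Nat.cast_smul_eq_nsmul ℝ, smul_smul, (s.link n hn).P0_T3 h0 (s.lev n (by omega))
            (s.lev _ hn) (by decide) (by decide), smul_add, mul_smul_comm, mul_smul_comm,
          show 2 * (n + 1) = 2 * n + 1 + 1 from rfl, Nat.factorial_succ (2 * n + 1),
          Nat.cast_mul], sum_const, card_erase_of_mem hr, hD, ← Nat.cast_smul_eq_nsmul ℝ,
      smul_smul, Nat.factorial_succ (2 * (n + 1)), Nat.cast_mul]
    rfl

theorem FF_eq (s : Sys α N ψ J) (hα : α = 1 ∨ α = 2) (hn : n ≤ N) (hD : D.card = 2 * n) :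
    FF α D = ((2 * n).factorial : ℝ) • phi α 0 1 2 n (J n) := (FF_TT s hα hn).1 D hD

theorem TT_eq (s : Sys α N ψ J) (hα : α = 1 ∨ α = 2) (hn : n ≤ N) (hD : D.card = 2 * n + 2)
    (hr : r ∈ D) : TT α D r = ((2 * n + 1).factorial : ℝ) • T3 α 0 1 2 n (ψ n) :=
  (FF_TT s hα hn).2 D r hD hr

end Pool.Agent.Lib.MP_fcdd89_co.Mp
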