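import Pool.Agent.Lib.MP_fcdd89_co.Mp.Defs

/-!
The Lax operator at a pair of matchings is the sum over all rewirings of the marked pair.
-/

set_option autoImplicit false
set_option linter.unusedSectionVars false

open Finset MvPolynomial Equiv

namespace Pool.Agent.Lib.MP_fcdd89_co.Mp

namespace JJ

variable {V : Type} [Fintype V] [DecidableEq V]

/-- The walk from `r` that alternates between `b` and `a`. -/
def sq (a b : Perm V) (r : V) : ℕ → V
  | 0 => r
  | i + 1 => (if i % 2 = 0 then b else a) (sq a b r i)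

variable {a b b' : Perm V} {r v : V} {D : Finset V} {c : V → ℝ} {α : ℝ} {m : ℕ}

theorem sq_b (i : ℕ) : sq a b r (2 * i + 1) = b (sq a b r (2 * i)) := by
  rw [sq, if_pos (by omega)]

theorem sq_a (i : ℕ) : sq a b r (2 * i + 2) = a (sq a b r (2 * i + 1)) := by
  rw [sq, if_neg (by omega)]

theorem sq_mem (i : ℕ) : sq a b r i ∈ orb a b r := by
  induction i with
  | zero => exact self_orb _ _ _
  | succ i ih =>
    rw [sq]
    split_ifs
    exacts [b_orb ih, a_orb ih]

/-- The walk closes up after `2 m` different points. -/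
structure Cy (a b : Perm V) (r : V) (m : ℕ) : Prop where
  pos : 0 < m
  per : sq a b r (2 * m) = r
  inj : ∀ i j, 1 ≤ i → i ≤ 2 * m → 1 ≤ j → j ≤ 2 * m → sq a b r i = sq a b r j → i = j

theorem exists_cy (ha : Mt D c α a) (hb : Mt D c α b) (hr : r ∈ D) : ∃ m, Cy a b r m := by
  classical
  have ex : ∃ N, ∃ j < N, sq a b r N = sq a b r j := by
    obtain ⟨i, j, h, e⟩ := Finite.exists_ne_map_eq_of_infinite (sq a b r)
    rcases lt_or_gt_of_ne h with h | h
    exacts [⟨j, i, h, e.symm⟩, ⟨i, j, h, e⟩]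
  obtain ⟨j, hj, e⟩ := Nat.find_spec ex
  have inj : ∀ i < Nat.find ex, ∀ j < Nat.find ex, sq a b r i = sq a b r j → i = j := by
    intro i hi j hj e
    by_contra h
    rcases lt_or_gt_of_ne h with h | h
    exacts [Nat.find_min ex hj ⟨i, h, e.symm⟩, Nat.find_min ex hi ⟨j, h, e⟩]
  generalize Nat.find ex = N at hj e inj
  obtain ⟨n, rfl⟩ : ∃ n, N = n + 1 := ⟨N - 1, by omega⟩
  have fi : ∀ u, (if n % 2 = 0 then b else a) ((if n % 2 = 0 then b else a) u) = u := fun u => by
    split_ifs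
    exacts [hb.inv u, ha.inv u]
  have e' : sq a b r n = (if n % 2 = 0 then b else a) (sq a b r j) := by rw [← e, sq, fi]
  have key : j = 0 ∧ n % 2 = 1 := by
    by_cases p : j % 2 = n % 2
    · exfalso
      by_cases q : j = n
      · subst q
        have hD := ha.orb_sub hb hr (sq_mem j)
        split_ifs at e'
        exacts [hb.fpf _ hD e'.symm, ha.fpf _ hD e'.symm]
      · have := inj n (by omega) (j + 1) (by omega) (by rw [e', sq, p])
        omega
    · cases j with
      | zero => omega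
      | succ k =>
        have := inj n (by omega) k (by omega) (by
          rw [e', sq, show k % 2 = n % 2 by omega, fi])
        omega
  obtain ⟨rfl, hn⟩ := key
  obtain ⟨m, hm⟩ : ∃ m, n + 1 = 2 * m := ⟨(n + 1) / 2, by omega⟩
  rw [hm] at e inj
  refine ⟨m, by omega, e, fun i j h1 h2 h3 h4 h => ?_⟩
  by_cases p : i = 2 * m <;> by_cases q : j = 2 * m
  · omega
  · have := inj 0 (by omega) j (by omega) (by rw [← e, ← p, h])
    omega
  · have := inj 0 (by omega) i (by omega) (by rw [← e, ← q, h])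
    omega
  · exact inj i (by omega) j (by omega) h

theorem a_seg (ha : ∀ u, a (a u) = u) (p q : ℕ) :
    ∀ u ∈ (Icc (2 * p + 1) (2 * q)).image (sq a b r),
      a u ∈ (Icc (2 * p + 1) (2 * q)).image (sq a b r) := by
  simp only [mem_image, mem_Icc]
  rintro _ ⟨j, hj, rfl⟩
  rcases Nat.even_or_odd' j with ⟨i, rfl | rfl⟩
  · obtain ⟨i, rfl⟩ : ∃ k, i = k + 1 := ⟨i - 1, by omega⟩
    exact ⟨2 * i + 1, by omega, by rw [mul_add, mul_one, sq_a, ha]⟩
  · exact ⟨2 * i + 2, by omega, sq_a i⟩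

theorem b_seg (hb : ∀ u, b' (b' u) = u) {p q : ℕ} (hpq : p < q)
    (h1 : b' (sq a b r (2 * p + 1)) = sq a b r (2 * q))
    (h2 : ∀ i, p < i → i < q → b' (sq a b r (2 * i)) = sq a b r (2 * i + 1)) :
    ∀ u ∈ (Icc (2 * p + 1) (2 * q)).image (sq a b r),
      b' u ∈ (Icc (2 * p + 1) (2 * q)).image (sq a b r) := by
  simp only [mem_image, mem_Icc]
  rintro _ ⟨j, hj, rfl⟩
  rcases Nat.even_or_odd' j with ⟨i, rfl | rfl⟩
  · by_cases e : i = q
    · exact ⟨2 * p + 1, by omega, by rw [e, ← h1, hb]⟩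
    · exact ⟨2 * i + 1, by omega, (h2 i (by omega) (by omega)).symm⟩
  · by_cases e : i = p
    · exact ⟨2 * q, by omega, by rw [e, h1]⟩
    · exact ⟨2 * i, by omega, by rw [← h2 i (by omega) (by omega), hb]⟩

theorem seg {p q : ℕ}
    (h2 : ∀ i, p < i → i < q → b' (sq a b r (2 * i)) = sq a b r (2 * i + 1)) :
    (Icc (2 * p + 1) (2 * q)).image (sq a b r) ⊆ orb a b' (sq a b r (2 * p + 1)) := by
  intro u hu
  obtain ⟨j, hj, rfl⟩ := mem_image.1 hu
  obtain ⟨h3, h4⟩ := mem_Icc.1 hj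
  clear hu hj
  induction j, h3 using Nat.le_induction with
  | base => exact self_orb _ _ _
  | succ j hj ih =>
    have := ih (by omega)
    rcases Nat.even_or_odd' j with ⟨i, rfl | rfl⟩
    · rw [← h2 i (by omega) (by omega)]
      exact b_orb this
    · rw [sq_a]
      exact a_orb this

theorem orb_seg (ha : ∀ u, a (a u) = u) (hb : ∀ u, b' (b' u) = u) {p q : ℕ} (hpq : p < q)
    (h1 : b' (sq a b r (2 * p + 1)) = sq a b r (2 * q))
    (h2 : ∀ i, p < i → i < q → b' (sq a b r (2 * i)) = sq a b r (2 * i + 1)) {j : ℕ}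
    (h3 : 2 * p + 1 ≤ j) (h4 : j ≤ 2 * q) :
    orb a b' (sq a b r j) = (Icc (2 * p + 1) (2 * q)).image (sq a b r) := by
  rw [orb_eq ha hb (seg h2 (mem_image_of_mem _ (mem_Icc.2 ⟨h3, h4⟩)))]
  exact (orb_sub (a_seg ha p q) (b_seg hb hpq h1 h2)
    (mem_image_of_mem _ (mem_Icc.2 ⟨le_rfl, by omega⟩))).antisymm (seg h2)

theorem Cy.orb_eq (k : Cy a b r m) (ha : ∀ u, a (a u) = u) (hb : ∀ u, b (b u) = u) :
    orb a b r = (Icc (2 * 0 + 1) (2 * m)).image (sq a b r) := by
  have := orb_seg (r := r) (b := b) ha hb k.pos (by rw [sq_b, hb, k.per]; rfl)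
    (fun i _ _ => (sq_b i).symm) (j := 2 * m) (by have := k.pos; omega) le_rfl
  rwa [k.per] at this

theorem Cy.card (k : Cy a b r m) {p q : ℕ} (hq : q ≤ m) :
    ((Icc (2 * p + 1) (2 * q)).image (sq a b r)).card = 2 * (q - p) := by
  rw [card_image_of_injOn, Nat.card_Icc]
  · omega
  · intro i hi j hj h
    have := mem_Icc.1 (mem_coe.1 hi)
    have := mem_Icc.1 (mem_coe.1 hj)
    exact k.inj i j (by omega) (by omega) (by omega) (by omega) h

theorem Cy.sub (k : Cy a b r m) (ha : ∀ u, a (a u) = u) (hb : ∀ u, b (b u) = u)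
    (hb' : ∀ u, b' (b' u) = u) (h : ∀ u ∈ orb a b r, u ≠ r → u ≠ b r → b' u = b u) :
    orb a b r ⊆ orb a b' r := by
  have h1 : orb a b r ⊆ orb a b' (sq a b r (2 * 0 + 1)) := by
    rw [k.orb_eq ha hb]
    refine seg fun i h1 h2 => ?_
    rw [sq_b, h _ (sq_mem _)]
    · intro e
      have := k.inj (2 * i) (2 * m) (by omega) (by omega) (by omega) le_rfl (e.trans k.per.symm)
      omega
    · intro e
      have := k.inj (2 * i) (2 * 0 + 1) (by omega) (by omega) (by omega) (by omega)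
        (e.trans (sq_b 0).symm)
      omega
  rwa [← Mp.orb_eq ha hb' (h1 (self_orb _ _ _))] at h1

theorem rew_inv (hb : ∀ u, b (b u) = u) (u : V) : rew r b v (rew r b v u) = u := by
  simp [rew, hb]

theorem rew_r (h : b r ≠ r) (hv : v ≠ r) : rew r b v r = v := by
  simp [rew, swap_apply_of_ne_of_ne h.symm hv.symm]

theorem rew_br (h : b v ≠ v) (hv : v ≠ r) : rew r b v (b r) = b v := by
  simp [rew, swap_apply_of_ne_of_ne (fun e => hv (b.injective e)) h]

theorem rew_off (hb : ∀ u, b (b u) = u) {u : V} (h1 : u ≠ r) (h2 : u ≠ b r) (h3 : u ≠ v)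
    (h4 : u ≠ b v) : rew r b v u = b u := by
  simp [rew, swap_apply_of_ne_of_ne h2 h3, swap_apply_of_ne_of_ne (fun e => h1 (b.injective e))
    (fun e : b u = v => h4 (by rw [← e, hb]))]

theorem swap_mem {S : Finset V} {x y u : V} (hx : x ∈ S) (hy : y ∈ S) (hu : u ∈ S) :
    swap x y u ∈ S := by
  rw [swap_apply_def]
  split_ifs <;> assumption

theorem rew_mem {S : Finset V} (hS : ∀ u ∈ S, b u ∈ S) (hr : r ∈ S) (hv : v ∈ S) :
    ∀ u ∈ S, rew r b v u ∈ S := fun _ hu =>
  swap_mem (hS r hr) hv (hS _ (swap_mem (hS r hr) hv hu))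

theorem rew_out (hb : ∀ u, b (b u) = u) {S : Finset V} (hS : ∀ u ∈ S, b u ∈ S) (hr : r ∈ S)
    (hv : v ∈ S) {u : V} (hu : u ∉ S) : rew r b v u = b u :=
  rew_off hb (fun e => hu (e ▸ hr)) (fun e => hu (e ▸ hS r hr)) (fun e => hu (e ▸ hv))
    fun e => hu (e ▸ hS v hv)

theorem rew_rew (h : b r ≠ r) (hv : v ≠ r) : rew r (rew r b v) (b r) = b := by
  rw [rew, rew_r h hv, rew, swap_comm v]
  ext u
  simp

theorem Mt_rew (hb : Mt D c α b) (hr : r ∈ D) (hv : v ∈ D) (hc : c v = c (b r)) :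
    Mt D c α (rew r b v) := by
  have cs : ∀ u, c (swap (b r) v u) = c u := fun u => by
    rw [swap_apply_def]
    split_ifs with p q
    · rw [p, hc]
    · rw [q, hc]
    · rfl
  refine ⟨rew_inv hb.inv, fun u hu e => ?_, fun u hu => ?_, fun u hu => ?_⟩
  · refine hb.fpf _ (swap_mem (hb.mem r hr) hv hu) ?_
    have := congrArg (swap (b r) v) e
    simpa [Mp.rew] using this
  · rw [rew_out hb.inv hb.mem hr hv hu, hb.off u hu]
  · have := hb.col _ (swap_mem (hb.mem r hr) hv hu)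
    rw [cs] at this
    simpa [Mp.rew, cs] using this

variable {σ : Type} [DecidableEq σ] {e : ℕ → σ}

theorem Pm_rew (ha : Mt D c α a) (hb : Mt D c α b) {S : Finset V} (ca : ∀ u ∈ S, a u ∈ S)
    (cb : ∀ u ∈ S, b u ∈ S) (hr : r ∈ S) (hv : v ∈ S) :
    Pm e a (rew r b v) (D \ S) = Pm e a b (D \ S) :=
  Pm_congr (closed_sdiff ha.inv ha.mem ca) (closed_sdiff hb.inv hb.mem cb) (fun _ _ => rfl)
    fun _ hu => rew_out hb.inv cb hr hv (mem_sdiff.1 hu).2

theorem ty_merge (ha : Mt D c α a) (hb : Mt D c α b) (hr : r ∈ D) (hv : v ∈ D \ orb a b r) :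
    ty e a (rew r b v) D r = X (e 0) ^ ((orb a b r).card / 2 - 1) *
      (X (e 0) ^ ((orb a b v).card / 2) * Pm e a b ((D \ orb a b r) \ orb a b v)) := by
  obtain ⟨hv, hn⟩ := mem_sdiff.1 hv
  have dj : ∀ u ∈ orb a b r, u ∉ orb a b v := fun u h1 h2 =>
    hn (orb_trans h1 (orb_symm ha.inv hb.inv h2))
  have ca : ∀ u ∈ orb a b r ∪ orb a b v, a u ∈ orb a b r ∪ orb a b v := fun u hu =>
    mem_union.2 ((mem_union.1 hu).imp a_orb a_orb)
  have cb : ∀ u ∈ orb a b r ∪ orb a b v, b u ∈ orb a b r ∪ orb a b v := fun u hu =>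
    mem_union.2 ((mem_union.1 hu).imp b_orb b_orb)
  have mr : r ∈ orb a b r ∪ orb a b v := mem_union_left _ (self_orb _ _ _)
  have mv : v ∈ orb a b r ∪ orb a b v := mem_union_right _ (self_orb _ _ _)
  have vr : v ≠ r := fun e => hn (e ▸ self_orb _ _ _)
  obtain ⟨m, k⟩ := exists_cy ha hb hr
  obtain ⟨m', k'⟩ := exists_cy ha hb hv
  have e1 : orb a (rew r b v) r = orb a b r ∪ orb a b v := by
    refine (orb_sub ca (rew_mem cb mr mv) mr).antisymm (union_subset ?_ ?_)
    · exact k.sub ha.inv hb.inv (rew_inv hb.inv) fun u hu h1 h2 => rew_off hb.inv h1 h2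
        (fun e => hn (e ▸ hu)) fun e => dj u hu (e ▸ b_orb (self_orb _ _ _))
    · refine (k'.sub ha.inv hb.inv (rew_inv hb.inv) fun u hu h1 h2 => rew_off hb.inv
        (fun e => dj u (e ▸ self_orb _ _ _) hu)
        (fun e => dj u (e ▸ b_orb (self_orb _ _ _)) hu) h1 h2).trans (orb_trans ?_)
      have := b_orb (self_orb a (rew r b v) r)
      rwa [rew_r (hb.fpf r hr) vr] at this
  have c1 := k.card (p := 0) le_rfl
  have c2 := k'.card (p := 0) le_rfl
  rw [← k.orb_eq ha.inv hb.inv] at c1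
  rw [← k'.orb_eq ha.inv hb.inv] at c2
  have := k.pos
  rw [ty, e1, Pm_rew ha hb ca cb mr mv, card_union_of_disjoint (disjoint_left.2 dj),
    ← mul_assoc, ← pow_add, sdiff_sdiff_left, sup_eq_union]
  congr 2
  omega

theorem Cy.ne (k : Cy a b r m) {i j : ℕ} (h1 : 1 ≤ i) (h2 : i ≤ 2 * m) (h3 : 1 ≤ j)
    (h4 : j ≤ 2 * m) (h : i ≠ j) : sq a b r i ≠ sq a b r j := fun e => h (k.inj i j h1 h2 h3 h4 e)

theorem Cy.rew_step (k : Cy a b r m) (hb : ∀ u, b (b u) = u) {i l : ℕ} (hi : 0 < i) (him : i < m)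
    (hv : v = sq a b r (2 * i) ∨ v = sq a b r (2 * i + 1)) (hl : 0 < l) (hlm : l < m)
    (hli : l ≠ i) : rew r b v (sq a b r (2 * l)) = sq a b r (2 * l + 1) := by
  have n1 := k.ne (i := 2 * l) (j := 2 * m) (by omega) (by omega) (by omega) le_rfl (by omega)
  have n2 := k.ne (i := 2 * l) (j := 2 * 0 + 1) (by omega) (by omega) (by omega) (by omega)
    (by omega)
  have n3 := k.ne (i := 2 * l) (j := 2 * i) (by omega) (by omega) (by omega) (by omega) (by omega)
  have n4 := k.ne (i := 2 * l) (j := 2 * i + 1) (by omega) (by omega) (by omega) (by omega)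
    (by omega)
  rw [k.per] at n1
  rw [sq_b] at n2
  rw [sq_b l]
  rcases hv with rfl | rfl
  · exact rew_off hb n1 n2 n3 (by rwa [← sq_b])
  · exact rew_off hb n1 n2 n4 (by rwa [sq_b i, hb])

theorem ty_twist (ha : Mt D c α a) (hb : Mt D c α b) (hr : r ∈ D) (k : Cy a b r m) {i : ℕ}
    (hi : 0 < i) (him : i < m) :
    ty e a (rew r b (sq a b r (2 * i))) D r = ty e a b D r := by
  have hi' := rew_inv (r := r) (v := sq a b r (2 * i)) hb.inv
  have n1 := k.ne (i := 2 * i) (j := 2 * m) (by omega) (by omega) (by omega) le_rfl (by omega)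
  rw [k.per] at n1
  have e1 : orb a (rew r b (sq a b r (2 * i))) r = orb a b r := by
    refine (orb_sub (fun _ => a_orb) (rew_mem (fun _ => b_orb) (self_orb _ _ _) (sq_mem _))
      (self_orb _ _ _)).antisymm ?_
    have s1 := seg (p := 0) (q := i) fun l h1 h2 =>
      k.rew_step hb.inv hi him (Or.inl rfl) h1 (by omega) (by omega)
    have s2 := seg (p := i) (q := m) fun l h1 h2 =>
      k.rew_step hb.inv hi him (Or.inl rfl) (by omega) h2 (by omega)
    have m1 := b_orb (self_orb a (rew r b (sq a b r (2 * i))) r)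
    rw [rew_r (hb.fpf r hr) n1] at m1
    have m2 := s2 (mem_image_of_mem _ (mem_Icc.2 ⟨(by omega : _ ≤ 2 * m), le_rfl⟩))
    rw [k.per] at m2
    rw [← orb_eq ha.inv hi' m2] at s2
    rw [← orb_eq ha.inv hi' (s1 (mem_image_of_mem _ (mem_Icc.2 ⟨(by omega : _ ≤ 2 * i), le_rfl⟩))),
      orb_eq ha.inv hi' m1] at s1
    rw [k.orb_eq ha.inv hb.inv]
    intro u hu
    obtain ⟨j, hj, rfl⟩ := mem_image.1 hu
    have := mem_Icc.1 hj
    by_cases p : j ≤ 2 * i
    · exact s1 (mem_image_of_mem _ (mem_Icc.2 (by omega)))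
    · exact s2 (mem_image_of_mem _ (mem_Icc.2 (by omega)))
  rw [ty, e1, Pm_rew ha hb (fun _ => a_orb) (fun _ => b_orb) (self_orb _ _ _) (sq_mem _), ty]

theorem ty_split (ha : Mt D c α a) (hb : Mt D c α b) (hr : r ∈ D) (k : Cy a b r m) {i : ℕ}
    (hi : 0 < i) (him : i < m) : ty e a (rew r b (sq a b r (2 * i + 1))) D r =
      X (e i) * X (e 0) ^ (m - 1 - i) * Pm e a b (D \ orb a b r) := by
  have hi' := rew_inv (r := r) (v := sq a b r (2 * i + 1)) hb.inv
  have hD : ∀ j, sq a b r j ∈ D := fun j => ha.orb_sub hb hr (sq_mem j)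
  have n1 := k.ne (i := 2 * i + 1) (j := 2 * m) (by omega) (by omega) (by omega) le_rfl (by omega)
  rw [k.per] at n1
  have o1 := orb_seg (p := 0) (q := i) ha.inv hi' hi (by
      rw [sq_b 0]
      exact (rew_br (hb.fpf _ (hD _)) n1).trans (by rw [sq_b, hb.inv]))
    (fun l h1 h2 => k.rew_step hb.inv hi him (Or.inr rfl) h1 (by omega) (by omega))
    (j := 2 * 0 + 1) le_rfl (by omega)
  have o2 := orb_seg (p := i) (q := m) ha.inv hi' him (by
      rw [k.per]
      have := hi' r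
      rwa [rew_r (hb.fpf r hr) n1] at this)
    (fun l h1 h2 => k.rew_step hb.inv hi him (Or.inr rfl) (by omega) h2 (by omega))
    (j := 2 * m) (by omega) le_rfl
  rw [k.per] at o2
  have hy : sq a b r (2 * 0 + 1) ∈ D \ (Icc (2 * i + 1) (2 * m)).image (sq a b r) :=
    mem_sdiff.2 ⟨hD _, fun h => by
      obtain ⟨j, hj, e⟩ := mem_image.1 h
      have := mem_Icc.1 hj
      have := k.inj j _ (by omega) (by omega) (by omega) (by omega) e
      omega⟩
  have un : (Icc (2 * i + 1) (2 * m)).image (sq a b r) ∪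
      (Icc (2 * 0 + 1) (2 * i)).image (sq a b r) = orb a b r := by
    rw [k.orb_eq ha.inv hb.inv, ← image_union]
    congr 1
    ext j
    simp only [mem_union, mem_Icc]
    omega
  rw [ty, o2, Pm_split ha.inv hi' hy, o1, k.card le_rfl, k.card him.le, sdiff_sdiff_left,
    sup_eq_union, un,
    Pm_rew ha hb (fun _ => a_orb) (fun _ => b_orb) (self_orb _ _ _) (sq_mem _),
    show 2 * (m - i) / 2 - 1 = m - 1 - i by omega, show 2 * (i - 0) / 2 = i by omega]
  ring

theorem sum_pairs {M : Type} [AddCommMonoid M] (f : ℕ → M) (n : ℕ) :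
    ∑ j ∈ Icc 2 (2 * n + 1), f j = ∑ i ∈ range n, (f (2 * (i + 1)) + f (2 * (i + 1) + 1)) := by
  induction n with
  | zero => simp
  | succ n ih =>
    rw [sum_range_succ, ← ih, show 2 * (n + 1) + 1 = 2 * n + 1 + 1 + 1 by ring,
      sum_Icc_succ_top (by omega), sum_Icc_succ_top (by omega), add_assoc]
    rfl

theorem sum_ty (he : Function.Injective e) (ha : Mt D c α a) (hb : Mt D c α b) (hr : r ∈ D)
    (hc : c r = α - 1) : ∑ v ∈ (D.erase r).erase (b r), c v • ty e a (rew r b v) D r =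
      Lx α e (ty e a b D r) := by
  obtain ⟨m, k⟩ := exists_cy ha hb hr
  obtain ⟨n, rfl⟩ : ∃ n, m = n + 1 := ⟨m - 1, by have := k.pos; omega⟩
  have hD : ∀ j, sq a b r j ∈ D := fun j => ha.orb_sub hb hr (sq_mem j)
  have cc : ∀ i, c (sq a b r (2 * i)) = α - 1 ∧ c (sq a b r (2 * i + 1)) = 1 := fun i => by
    suffices h : c (sq a b r (2 * i)) = α - 1 from ⟨h, by
      have := hb.col _ (hD (2 * i))
      rw [sq_b]
      linarith⟩
    induction i with
    | zero => exact hc
    | succ i ih =>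
      have h1 := hb.col _ (hD (2 * i))
      have h2 := ha.col _ (hD (2 * i + 1))
      rw [← sq_b] at h1
      rw [mul_add, mul_one, sq_a]
      linarith
  have sp : (D.erase r).erase (b r) =
      (Icc 2 (2 * n + 1)).image (sq a b r) ∪ (D \ orb a b r) := by
    ext u
    simp only [mem_erase, mem_union, mem_image, mem_Icc, mem_sdiff]
    constructor
    · rintro ⟨h1, h2, h3⟩
      by_cases p : u ∈ orb a b r
      · rw [k.orb_eq ha.inv hb.inv] at p
        obtain ⟨j, hj, rfl⟩ := mem_image.1 p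
        have := mem_Icc.1 hj
        have q1 : j ≠ 2 * 0 + 1 := fun e => h1 (by rw [e, sq_b]; rfl)
        have q2 : j ≠ 2 * (n + 1) := fun e => h2 (by rw [e, k.per])
        exact Or.inl ⟨j, by omega, rfl⟩
      · exact Or.inr ⟨h3, p⟩
    · rintro (⟨j, hj, rfl⟩ | ⟨h1, h2⟩)
      · have n1 := k.ne (i := j) (j := 2 * (n + 1)) (by omega) (by omega) (by omega) le_rfl
          (by omega)
        have n2 := k.ne (i := j) (j := 2 * 0 + 1) (by omega) (by omega) (by omega) (by omega)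
          (by omega)
        rw [k.per] at n1
        rw [sq_b] at n2
        exact ⟨n2, n1, hD j⟩
      · exact ⟨fun e => h2 (e ▸ b_orb (self_orb _ _ _)), fun e => h2 (e ▸ self_orb _ _ _), h1⟩
  have c1 := k.card (p := 0) le_rfl
  rw [← k.orb_eq ha.inv hb.inv] at c1
  have c2 : (orb a b r).card / 2 - 1 = n := by omega
  have fr : ∀ u ∈ D \ orb a b r, b u ≠ u := fun u hu => hb.fpf u (mem_sdiff.1 hu).1
  have A : ∑ j ∈ Icc 2 (2 * n + 1), c (sq a b r j) • ty e a (rew r b (sq a b r j)) D r =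
      ((n : ℝ) * (α - 1)) • (X (e 0) ^ n * Pm e a b (D \ orb a b r)) +
        ∑ i ∈ range n, X (e (i + 1)) * X (e 0) ^ (n - 1 - i) * Pm e a b (D \ orb a b r) := by
    rw [sum_pairs, ← smul_smul, Nat.cast_smul_eq_nsmul, ← card_range n, ← sum_const, card_range,
      ← sum_add_distrib]
    refine sum_congr rfl fun i hi => ?_
    have := mem_range.1 hi
    rw [(cc (i + 1)).1, (cc (i + 1)).2, one_smul, ty_twist ha hb hr k i.succ_pos (by omega),
      ty_split ha hb hr k i.succ_pos (by omega), ty, c2,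
      show n + 1 - 1 - i.succ = n - 1 - i by omega]
  have B : ∑ v ∈ D \ orb a b r, c v • ty e a (rew r b v) D r =
      ∑ v ∈ D \ orb a b r, X (e 0) ^ n *
        c v • (X (e 0) ^ ((orb a b v).card / 2) * Pm e a b ((D \ orb a b r) \ orb a b v)) :=
    sum_congr rfl fun v hv => by rw [ty_merge ha hb hr hv, c2, mul_smul_comm]
  rw [sp, sum_union (disjoint_left.2 fun u h1 h2 => by
      obtain ⟨j, _, rfl⟩ := mem_image.1 h1
      exact (mem_sdiff.1 h2).2 (sq_mem j)), sum_image fun i hi j hj h => by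
      have := mem_Icc.1 (mem_coe.1 hi)
      have := mem_Icc.1 (mem_coe.1 hj)
      exact k.inj i j (by omega) (by omega) (by omega) (by omega) h, A, B, ty,
    Lx_mul_free α _ (Pm_free he fr), Lx_free α (Pm_free he fr),
    Dr_Pm he ha.inv hb.inv _ (closed_sdiff ha.inv ha.mem fun _ => a_orb)
      (closed_sdiff hb.inv hb.mem fun _ => b_orb) fr fun u hu => hb.col u (mem_sdiff.1 hu).1,
    c2, Lx_apply, Dr_w_pow α he, W_pow, uq, add_mul, sum_mul, mul_sum,
    smul_mul_assoc, mul_comm (α - 1)]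

end JJ

variable {V : Type} [Fintype V] [DecidableEq V] {σ : Type} [DecidableEq σ] {e : ℕ → σ}
  {α : ℝ} {D : Finset V} {a b : Perm V} {r : V} {c : V → ℝ}

/-- The Lax operator as a sum over rewirings. -/
theorem J_sum (he : Function.Injective e) (ha : Mt D c α a) (hb : Mt D c α b) (hr : r ∈ D)
    (hc : c r = α - 1) : ∑ v ∈ (D.erase r).erase (b r),
      c v • ty e a (swap (b r) v * b * swap (b r) v) D r = Lx α e (ty e a b D r) :=
  JJ.sum_ty he ha hb hr hc

end Pool.Agent.Lib.MP_fcdd89_co.Mp
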