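import Pool.Agent.Lib.MP_fcdd89_co.Mp.Defs

/-!
Orbit surgery: adding a pair of new points to two matchings.
-/

set_option autoImplicit false

open Finset MvPolynomial Equiv

namespace Pool.Agent.Lib.MP_fcdd89_co.Mp

variable {V : Type} [Fintype V] [DecidableEq V] {σ : Type} [DecidableEq σ] {e : ℕ → σ}
  {α : ℝ} {D K : Finset V} {a b d : Perm V} {r u v : V} {c : V → ℝ}

omit [Fintype V] in
theorem ext_in (hr : r ∉ D) (hu : u ∉ D) {x : V} (hx : x ∈ D) : (a * swap r u) x = a x := by
  rw [Perm.mul_apply, swap_apply_of_ne_of_ne (by rintro rfl; exact hr hx)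
    (by rintro rfl; exact hu hx)]

omit [Fintype V] in
theorem ext_r (ha : Mt D c α a) (hu : u ∉ D) : (a * swap r u) r = u := by
  rw [Perm.mul_apply, swap_apply_left, ha.off u hu]

omit [Fintype V] in
theorem ext_u (ha : Mt D c α a) (hr : r ∉ D) : (a * swap r u) u = r := by
  rw [Perm.mul_apply, swap_apply_right, ha.off r hr]

omit [DecidableEq σ] in
theorem ty_new (ha : Mt D c α a) (hb : Mt D c α b) (hr : r ∉ D) (hu : u ∉ D) (hru : r ≠ u) :
    ty e (a * swap r u) (b * swap r u) (insert r (insert u D)) r = Pm e a b D := by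
  have h1 : orb (a * swap r u) (b * swap r u) r = {r, u} := by
    refine (orb_sub ?_ ?_ (by simp)).antisymm ?_
    · intro x hx
      rcases mem_insert.1 hx with h | h
      · rw [h, ext_r ha hu]; simp
      · rw [mem_singleton.1 h, ext_u ha hr]; simp
    · intro x hx
      rcases mem_insert.1 hx with h | h
      · rw [h, ext_r hb hu]; simp
      · rw [mem_singleton.1 h, ext_u hb hr]; simp
    · intro x hx
      rcases mem_insert.1 hx with h | h
      · rw [h]; exact self_orb _ _ _
      · have := a_orb (self_orb (a * swap r u) (b * swap r u) r)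
        rw [mem_singleton.1 h]
        rwa [ext_r ha hu] at this
  have h2 : insert r (insert u D) \ {r, u} = D := by
    ext x
    simp only [mem_sdiff, mem_insert, mem_singleton]
    constructor
    · rintro ⟨h | h | h, h'⟩
      exacts [(h' (Or.inl h)).elim, (h' (Or.inr h)).elim, h]
    · intro h
      refine ⟨Or.inr (Or.inr h), ?_⟩
      rintro (rfl | rfl)
      exacts [hr h, hu h]
  rw [ty, h1, h2, card_pair hru, Pm_congr ha.mem hb.mem (fun x hx => ext_in hr hu hx)
    (fun x hx => ext_in hr hu hx)]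
  simp

omit [DecidableEq σ] in
theorem ty_rew (ha : Mt D c α a) (hb : Mt D c α b) (hr : r ∉ D) (hu : u ∉ D) (hru : r ≠ u)
    (hv : v ∈ D) : ty e (a * swap r u) (rew r (b * swap r u) v) (insert r (insert u D)) r =
      X (e 0) * ty e a b D v := by
  have hrv : r ≠ v := by rintro rfl; exact hr hv
  have nu : ∀ x ∈ D, x ≠ u := fun x hx h => hu (h ▸ hx)
  have hbv := hb.mem v hv
  obtain ⟨b', hb'⟩ : ∃ b', b' = rew r (b * swap r u) v := ⟨_, rfl⟩
  have ap : ∀ x, b' x = swap u v ((b * swap r u) (swap u v x)) := fun x => by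
    rw [hb', rew, ext_r hb hu]; rfl
  have br : b' r = v := by
    rw [ap, swap_apply_of_ne_of_ne hru hrv, ext_r hb hu, swap_apply_left]
  have bv : b' v = r := by
    rw [ap, swap_apply_right, ext_u hb hr, swap_apply_of_ne_of_ne hru hrv]
  have bu : b' u = b v := by
    rw [ap, swap_apply_left, ext_in hr hu hv, swap_apply_of_ne_of_ne (nu _ hbv) (hb.fpf v hv)]
  have bbv : b' (b v) = u := by
    rw [ap, swap_apply_of_ne_of_ne (nu _ hbv) (hb.fpf v hv), ext_in hr hu hbv, hb.inv,
      swap_apply_right]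
  have bx : ∀ x ∈ D, x ≠ v → x ≠ b v → b' x = b x := fun x hx h1 h2 => by
    rw [ap, swap_apply_of_ne_of_ne (nu _ hx) h1, ext_in hr hu hx,
      swap_apply_of_ne_of_ne (nu _ (hb.mem x hx)) fun h => h2 (by rw [← h, hb.inv])]
  have hO : orb a b v ⊆ D := ha.orb_sub hb hv
  have h1 : orb (a * swap r u) b' r = insert r (insert u (orb a b v)) := by
    refine (orb_sub ?_ ?_ (by simp)).antisymm ?_
    · intro x hx
      rcases mem_insert.1 hx with h | h
      · rw [h, ext_r ha hu]; simp
      rcases mem_insert.1 h with h | h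
      · rw [h, ext_u ha hr]; simp
      · rw [ext_in hr hu (hO h)]
        exact mem_insert_of_mem (mem_insert_of_mem (a_orb h))
    · intro x hx
      rcases mem_insert.1 hx with h | h
      · rw [h, br]
        exact mem_insert_of_mem (mem_insert_of_mem (self_orb _ _ _))
      rcases mem_insert.1 h with h | h
      · rw [h, bu]
        exact mem_insert_of_mem (mem_insert_of_mem (b_orb (self_orb _ _ _)))
      by_cases e1 : x = v
      · rw [e1, bv]; simp
      by_cases e2 : x = b v
      · rw [e2, bbv]; simp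
      rw [bx x (hO h) e1 e2]
      exact mem_insert_of_mem (mem_insert_of_mem (b_orb h))
    · have m1 := self_orb (a * swap r u) b' r
      have m2 : u ∈ orb (a * swap r u) b' r := by
        have := a_orb m1
        rwa [ext_r ha hu] at this
      have m3 : v ∈ orb (a * swap r u) b' r := br ▸ b_orb m1
      have m4 : b v ∈ orb (a * swap r u) b' r := bu ▸ b_orb m2
      refine insert_subset m1 (insert_subset m2 ?_)
      refine (orb_sub (T := orb (a * swap r u) b' r ∩ D) ?_ ?_
        (mem_inter.2 ⟨m3, hv⟩)).trans inter_subset_left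
      · intro x hx
        obtain ⟨x1, x2⟩ := mem_inter.1 hx
        exact mem_inter.2 ⟨ext_in (a := a) hr hu x2 ▸ a_orb x1, ha.mem x x2⟩
      · intro x hx
        obtain ⟨x1, x2⟩ := mem_inter.1 hx
        refine mem_inter.2 ⟨?_, hb.mem x x2⟩
        by_cases e1 : x = v
        · rw [e1]; exact m4
        by_cases e2 : x = b v
        · rw [e2, hb.inv]; exact m3
        exact bx x x2 e1 e2 ▸ b_orb x1
  have h2 : insert r (insert u D) \ insert r (insert u (orb a b v)) = D \ orb a b v := by
    ext x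
    simp only [mem_sdiff, mem_insert]
    constructor
    · rintro ⟨h | h | h, h'⟩
      exacts [(h' (Or.inl h)).elim, (h' (Or.inr (Or.inl h))).elim,
        ⟨h, fun k => h' (Or.inr (Or.inr k))⟩]
    · rintro ⟨h, h'⟩
      refine ⟨Or.inr (Or.inr h), ?_⟩
      rintro (rfl | rfl | k)
      exacts [hr h, hu h, h' k]
  have h3 : (insert r (insert u (orb a b v))).card = (orb a b v).card + 2 := by
    rw [card_insert_of_notMem, card_insert_of_notMem fun h => hu (hO h)]
    intro h
    rcases mem_insert.1 h with h | h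
    exacts [hru h, hr (hO h)]
  have h4 := two_le_orb (a := a) (hb.fpf v hv)
  rw [← hb', ty, h1, h2, h3, Pm_congr (a := a) (b := b)
    (closed_sdiff ha.inv ha.mem fun _ => a_orb) (closed_sdiff hb.inv hb.mem fun _ => b_orb)
    (fun x hx => ext_in hr hu (mem_sdiff.1 hx).1)
    (fun x hx => bx x (mem_sdiff.1 hx).1
      (fun h => (mem_sdiff.1 hx).2 (h ▸ self_orb _ _ _))
      (fun h => (mem_sdiff.1 hx).2 (h ▸ b_orb (self_orb _ _ _)))), ty, ← mul_assoc, ← pow_succ',
    show ((orb a b v).card + 2) / 2 - 1 = (orb a b v).card / 2 - 1 + 1 by omega]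

theorem Bt_ty (he : Function.Injective e) (ha : Mt D c α a) (hb : Mt D c α b) (hr : r ∈ D) :
    Bt e (X (e 0) * ty e a b D r) = Pm e a b D := by
  have h4 := two_le_orb (a := a) (hb.fpf r hr)
  rw [ty, ← mul_assoc, ← pow_succ', Bt,
    W_pow_mul _ _ (Pm_free he fun x hx => hb.fpf x (mem_sdiff.1 hx).1), if_neg (by omega),
    show (orb a b r).card / 2 - 1 + 1 = (orb a b r).card / 2 by omega,
    ← Pm_split ha.inv hb.inv hr]

theorem P0_ty (he : Function.Injective e) (ha : Mt D c α a) (hb : Mt D c α b) (hr : r ∈ D)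
    (h : a r ≠ b r) : P0 (e 0) (ty e a b D r) = 0 := by
  have h3 : 2 < (orb a b r).card :=
    two_lt_card_iff.2 ⟨r, a r, b r, self_orb _ _ _, a_orb (self_orb _ _ _), b_orb (self_orb _ _ _),
      (ha.fpf r hr).symm, (hb.fpf r hr).symm, h⟩
  have h2 := card_even (S := orb a b r) hb.inv (fun _ => b_orb)
    fun x hx => hb.fpf x (ha.orb_sub hb hr hx)
  rw [ty, P0, W_pow_mul _ _ (Pm_free he fun x hx => hb.fpf x (mem_sdiff.1 hx).1),
    if_neg (by omega), zero_mul]

theorem free_Pm {s : σ} (hs : ∀ k, e k ≠ s) : Free s (Pm e a b D) :=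
  Free.prod _ fun _ _ => Free.X (hs _)

theorem free_ty {s : σ} (hs : ∀ k, e k ≠ s) : Free s (ty e a b D r) :=
  ((Free.X (hs 0)).pow _).mul (free_Pm hs)

theorem Cl_ty (i : Fin 3) (ha : Mt D c α a) (hb : Mt D c α b) (hr : r ∈ D) :
    Cl i (ty (Prod.mk i) a b D r) = Pm (Prod.mk i) a b D := by
  rw [Cl_apply]
  exact Bt_ty (mk_inj i) ha hb hr

theorem Cl3_t3 (ha : Mt D c α a) (hb : Mt D c α b) (hd : Mt D c α d) (hr : r ∈ D) :
    Cl 0 (Cl 1 (Cl 2 (t3 a b d D r))) = P3 a b d D := by
  have ne : ∀ {i j : Fin 3}, i ≠ j → ∀ k : ℕ, (i, k) ≠ (j, 0) :=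
    fun h k h' => h (congrArg Prod.fst h')
  rw [t3, mul_comm, Cl_mul_free 2 _ ((free_ty (ne (by decide))).mul (free_ty (ne (by decide)))),
    Cl_ty 2 hd ha hr, mul_comm (ty (Prod.mk 0) a b D r), mul_left_comm,
    Cl_mul_free 1 _ ((free_Pm (ne (by decide))).mul (free_ty (ne (by decide)))),
    Cl_ty 1 hb hd hr, ← mul_assoc, mul_comm,
    Cl_mul_free 0 _ ((free_Pm (ne (by decide))).mul (free_Pm (ne (by decide)))),
    Cl_ty 0 ha hb hr, P3, mul_assoc]

end Pool.Agent.Lib.MP_fcdd89_co.Mp
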