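import Pool.Agent.Lib.MP_fcdd89_co.Mp.J
import Pool.Agent.Lib.MP_fcdd89_co.Mp.Rew
import Pool.Agent.Lib.MP_fcdd89_co.Mp.Surg

/-!
The rooted sum over triples of matchings has the same image under the Lax operators of the
first two alphabets.
-/

set_option autoImplicit false

open Finset MvPolynomial Equiv

namespace Pool.Agent.Lib.MP_fcdd89_co.Mp

variable {V : Type} [Fintype V] [DecidableEq V] {σ : Type} [DecidableEq σ] {e : ℕ → σ}
  {α : ℝ} {D K : Finset V} {a b d : Perm V} {r u v : V} {c : V → ℝ}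

theorem L_mul (f : MvPolynomial σ ℝ) {g : MvPolynomial σ ℝ} (hg : ∀ k, Free (e k) g) :
    Lx α e (f * g) = Lx α e f * g := by
  rw [Lx_mul_free α _ (hg 0), Lx_free α (hg 0), der_zero (g := g) fun s => by
    by_cases h : ∃ k, e k = s
    · obtain ⟨k, rfl⟩ := h
      exact Or.inl (hg k)
    · exact Or.inr (Dr_out α (not_exists.1 h)), mul_zero, add_zero]

theorem L_free {x y : Fin 3} (h : x ≠ y) (k : ℕ) : Free (y, k) (ty (Prod.mk x) a b D r) :=
  free_ty fun _ q => h (Prod.ext_iff.1 q).1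

theorem L_zero (ha : Mt D c α a) (hb : Mt D c α b) (hr : r ∈ D) (hc : c r = α - 1) :
    Lx α (Prod.mk 0) (t3 a b d D r) = ∑ v ∈ (D.erase r).erase (b r), c v •
      (ty (Prod.mk 0) a (rew r b v) D r * ty (Prod.mk 1) b d D r * ty (Prod.mk 2) d a D r) := by
  rw [t3, mul_assoc, L_mul _ fun k => (L_free (by decide) k).mul (L_free (by decide) k),
    ← J_sum (mk_inj 0) ha hb hr hc, sum_mul]
  exact sum_congr rfl fun v _ => by rw [smul_mul_assoc, rew, mul_assoc (ty _ _ _ _ _)]

theorem L_one (hb : Mt D c α b) (hd : Mt D c α d) (hr : r ∈ D) (hc : c r = α - 1) :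
    Lx α (Prod.mk 1) (t3 a b d D r) = ∑ v ∈ (D.erase r).erase (b r), c v •
      (ty (Prod.mk 0) a b D r * ty (Prod.mk 1) (rew r b v) d D r * ty (Prod.mk 2) d a D r) := by
  rw [t3, mul_comm (ty _ a b D r), mul_assoc,
    L_mul _ fun k => (L_free (by decide) k).mul (L_free (by decide) k), ty_comm (a := b),
    ← J_sum (mk_inj 1) hd hb hr hc, sum_mul]
  exact sum_congr rfl fun v _ => by
    rw [smul_mul_assoc, ← mul_assoc, mul_comm _ (ty _ a b D r), ty_comm (a := d), rew]

theorem TT_L (hr : r ∈ D) :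
    Lx α (Prod.mk 0) (TT α D r) = Lx α (Prod.mk 1) (TT α D r) := by
  classical
  simp only [TT, map_sum]
  refine sum_congr rfl fun K hK => sum_congr rfl fun a ha => ?_
  have hc := (mem_filter.1 hK).2
  rw [sum_comm, sum_comm (s := MM α D K) (f := fun b d => Lx α (Prod.mk 1) (t3 a b d D r))]
  refine sum_congr rfl fun d hd => ?_
  rw [sum_congr rfl fun b hb => L_zero (mem_MM.1 ha) (mem_MM.1 hb) hr hc,
    sum_congr rfl fun b hb => L_one (mem_MM.1 hb) (mem_MM.1 hd) hr hc]
  exact sum_rew hr hc fun b b' =>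
    ty (Prod.mk 0) a b' D r * ty (Prod.mk 1) b d D r * ty (Prod.mk 2) d a D r

end Pool.Agent.Lib.MP_fcdd89_co.Mp
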