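import Pool.Agent.Lib.MP_fcdd89_co.Mp.Defs

/-!
Rooted bipartite maps as triples of matchings on the sides of the edges.
-/

set_option autoImplicit false

open Finset Equiv

namespace Pool.Agent.Lib.MP_fcdd89_co.Mp

/-- A rooted bipartite map with `n` edges whose `2 n` edge sides are labelled: `e` exchanges the
two sides of an edge, `b` the two sides that form a corner at a black vertex, `w` the two sides
that form a corner at a white vertex, and `r` is the root side. -/
@[ext] structure LMap (n : ℕ) where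
  e : Perm (Fin (2 * n))
  b : Perm (Fin (2 * n))
  w : Perm (Fin (2 * n))
  r : Fin (2 * n)
  inv : ∀ x, e (e x) = x ∧ b (b x) = x ∧ w (w x) = x
  fpf : ∀ x, e x ≠ x ∧ b x ≠ x ∧ w x ≠ x
  conn : ∀ x y, Relation.ReflTransGen (fun u v => v = e u ∨ v = b u ∨ v = w u) x y

variable {n : ℕ}

/-- A relabelling of the sides that respects the three matchings and the root. -/
def LMap.Iso (L M : LMap n) : Prop :=
  ∃ g : Perm (Fin (2 * n)), g L.r = M.r ∧
    ∀ x, g (L.e x) = M.e (g x) ∧ g (L.b x) = M.b (g x) ∧ g (L.w x) = M.w (g x)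

/-- The sides have a two-colouring that is reversed by the three matchings. -/
def LMap.Orientable (L : LMap n) : Prop :=
  ∃ c : Fin (2 * n) → Bool, ∀ x, c (L.e x) ≠ c x ∧ c (L.b x) ≠ c x ∧ c (L.w x) ≠ c x

/-- The black vertex, white vertex and face distributions are `μ`, `ν`, `τ`. -/
def LMap.Has (L : LMap n) (μ ν τ : n.Partition) : Prop :=
  typ L.b L.e univ = μ.parts ∧ typ L.e L.w univ = ν.parts ∧ typ L.w L.b univ = τ.parts

instance LMap.setoid (n : ℕ) : Setoid (LMap n) where
  r := LMap.Iso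
  iseqv :=
    { refl := fun _ => ⟨1, rfl, fun _ => ⟨rfl, rfl, rfl⟩⟩
      symm := fun ⟨g, h, k⟩ => ⟨g.symm, by rw [← h, symm_apply_apply], fun x => by
        obtain ⟨y, rfl⟩ := g.surjective x
        rw [← (k y).1, ← (k y).2.1, ← (k y).2.2]
        simp⟩
      trans := fun ⟨g, h, k⟩ ⟨g', h', k'⟩ => ⟨g' * g, by rw [Perm.mul_apply, h, h'], fun x => by
        simp only [Perm.mul_apply, k x, k' (g x), and_self]⟩ }

/-- Rooted bipartite maps with `n` edges. -/
def RMap (n : ℕ) : Type := Quotient (LMap.setoid n)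

instance : Finite (LMap n) :=
  Finite.of_injective (fun L : LMap n => (L.e, L.b, L.w, L.r)) fun L M h => by
    simp only [Prod.mk.injEq] at h
    exact LMap.ext h.1 h.2.1 h.2.2.1 h.2.2.2

noncomputable instance : Fintype (RMap n) :=
  @Fintype.ofFinite _ (Quotient.finite (LMap.setoid n))

theorem typ_conj {V : Type} [Fintype V] [DecidableEq V] {a b a' b' g : Perm V}
    (ha : ∀ x, g (a x) = a' (g x)) (hb : ∀ x, g (b x) = b' (g x)) :
    typ a' b' univ = typ a b univ := by
  have key : ∀ x, orb a' b' (g x) = (orb a b x).map g.toEmbedding := fun x => by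
    refine (orb_sub (fun u hu => ?_) (fun u hu => ?_) ?_).antisymm fun y hy => ?_
    · obtain ⟨v, hv, rfl⟩ := mem_map.1 hu
      exact mem_map.2 ⟨a v, a_orb hv, ha v⟩
    · obtain ⟨v, hv, rfl⟩ := mem_map.1 hu
      exact mem_map.2 ⟨b v, b_orb hv, hb v⟩
    · exact mem_map.2 ⟨x, self_orb _ _ _, rfl⟩
    · obtain ⟨v, hv, rfl⟩ := mem_map.1 hy
      have : orb a b x ⊆ univ.filter fun u => g u ∈ orb a' b' (g x) :=
        orb_sub (fun u hu => by simpa [ha] using a_orb (mem_filter.1 hu).2)
          (fun u hu => by simpa [hb] using b_orb (mem_filter.1 hu).2) (by simpa using self_orb _ _ _)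
      exact (mem_filter.1 (this hv)).2
  have : univ.image (orb a' b') =
      (univ.image (orb a b)).map (mapEmbedding g.toEmbedding).toEmbedding := by
    ext C
    simp only [mem_image, mem_univ, true_and, mem_map]
    constructor
    · rintro ⟨x, rfl⟩
      obtain ⟨y, rfl⟩ := g.surjective x
      exact ⟨_, ⟨y, rfl⟩, (key y).symm⟩
    · rintro ⟨_, ⟨y, rfl⟩, rfl⟩
      exact ⟨g y, key y⟩
  rw [typ, typ, this, map_val, Multiset.map_map]
  exact Multiset.map_congr rfl fun C _ => by simp

theorem LMap.Iso.orientable {L M : LMap n} (h : L.Iso M) (k : M.Orientable) : L.Orientable := by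
  obtain ⟨g, -, h⟩ := h
  obtain ⟨c, k⟩ := k
  exact ⟨fun x => c (g x), fun x => by simpa only [h x] using k (g x)⟩

theorem LMap.Iso.has {L M : LMap n} (h : L.Iso M) (μ ν τ : n.Partition) :
    L.Has μ ν τ = M.Has μ ν τ := by
  obtain ⟨g, -, h⟩ := h
  rw [LMap.Has, LMap.Has, typ_conj (fun x => (h x).2.1) (fun x => (h x).1),
    typ_conj (fun x => (h x).1) (fun x => (h x).2.2),
    typ_conj (fun x => (h x).2.2) (fun x => (h x).2.1)]

/-- Orientability of a rooted map. -/
def RMap.Orientable (M : RMap n) : Prop :=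
  Quotient.liftOn M LMap.Orientable fun _ _ h =>
    propext ⟨LMap.Iso.orientable (Setoid.symm h), LMap.Iso.orientable h⟩

/-- The three distributions of a rooted map. -/
def RMap.Has (M : RMap n) (μ ν τ : n.Partition) : Prop :=
  Quotient.liftOn M (fun L => L.Has μ ν τ) fun _ _ h => LMap.Iso.has h μ ν τ

end Pool.Agent.Lib.MP_fcdd89_co.Mp
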