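import Pool.Agent.Lib.MP_fcdd89_co.Ops

/-!
Orbits of a pair of involutions and the power sum monomial of a pair of matchings.
-/

set_option autoImplicit false
set_option linter.unusedSectionVars false

open Finset MvPolynomial Equiv

namespace Pool.Agent.Lib.MP_fcdd89_co.Mp

variable {V : Type} [Fintype V] [DecidableEq V]

/-- `y` is reached from `x` by applying `a` and `b`. -/
def Rch (a b : Perm V) (x y : V) : Prop :=
  Relation.ReflTransGen (fun u v => v = a u ∨ v = b u) x y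

open Classical in
/-- The orbit of `x` under `a` and `b`. -/
noncomputable def orb (a b : Perm V) (x : V) : Finset V := univ.filter (Rch a b x)

variable {a b a' b' : Perm V} {x y r : V} {S T D : Finset V}

theorem mem_orb : y ∈ orb a b x ↔ Rch a b x y := by simp [orb]

theorem self_orb (a b : Perm V) (x : V) : x ∈ orb a b x := mem_orb.2 Relation.ReflTransGen.refl

theorem a_orb (h : y ∈ orb a b x) : a y ∈ orb a b x :=
  mem_orb.2 ((mem_orb.1 h).tail (Or.inl rfl))

theorem b_orb (h : y ∈ orb a b x) : b y ∈ orb a b x :=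
  mem_orb.2 ((mem_orb.1 h).tail (Or.inr rfl))

theorem orb_sub (ha : ∀ u ∈ T, a u ∈ T) (hb : ∀ u ∈ T, b u ∈ T) (hx : x ∈ T) :
    orb a b x ⊆ T := fun y hy => by
  have := mem_orb.1 hy
  clear hy
  induction this with
  | refl => exact hx
  | tail _ h ih => rcases h with rfl | rfl; exacts [ha _ ih, hb _ ih]

theorem orb_comm (a b : Perm V) (x : V) : orb a b x = orb b a x :=
  (orb_sub (fun _ => b_orb) (fun _ => a_orb) (self_orb _ _ _)).antisymm
    (orb_sub (fun _ => b_orb) (fun _ => a_orb) (self_orb _ _ _))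

theorem orb_trans (h : y ∈ orb a b x) : orb a b y ⊆ orb a b x :=
  orb_sub (fun _ => a_orb) (fun _ => b_orb) h

theorem orb_symm (ha : ∀ u, a (a u) = u) (hb : ∀ u, b (b u) = u) (h : y ∈ orb a b x) :
    x ∈ orb a b y := by
  have := mem_orb.1 h
  clear h
  induction this with
  | refl => exact self_orb _ _ _
  | @tail u v _ h ih =>
    refine orb_trans ?_ ih
    rcases h with rfl | rfl
    · have := a_orb (self_orb a b (a u)); rwa [ha] at this
    · have := b_orb (self_orb a b (b u)); rwa [hb] at this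

theorem orb_eq (ha : ∀ u, a (a u) = u) (hb : ∀ u, b (b u) = u) (h : y ∈ orb a b x) :
    orb a b y = orb a b x := (orb_trans h).antisymm (orb_trans (orb_symm ha hb h))

theorem orb_congr (ha : ∀ u ∈ T, a u ∈ T) (hb : ∀ u ∈ T, b u ∈ T) (ea : ∀ u ∈ T, a' u = a u)
    (eb : ∀ u ∈ T, b' u = b u) (hx : x ∈ T) : orb a' b' x = orb a b x := by
  have h1 := orb_sub ha hb hx
  have h2 : orb a' b' x ⊆ orb a b x :=
    orb_sub (fun u hu => ea u (h1 hu) ▸ a_orb hu) (fun u hu => eb u (h1 hu) ▸ b_orb hu)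
      (self_orb _ _ _)
  exact h2.antisymm (orb_sub (fun u hu => ea u (h1 (h2 hu)) ▸ a_orb hu)
    (fun u hu => eb u (h1 (h2 hu)) ▸ b_orb hu) (self_orb _ _ _))

theorem closed_sdiff (ha : ∀ u, a (a u) = u) (hS : ∀ u ∈ S, a u ∈ S) (hT : ∀ u ∈ T, a u ∈ T) :
    ∀ u ∈ S \ T, a u ∈ S \ T := fun u hu =>
  mem_sdiff.2 ⟨hS u (mem_sdiff.1 hu).1, fun h => (mem_sdiff.1 hu).2 (ha u ▸ hT _ h)⟩

omit [Fintype V] in
theorem card_even (hb : ∀ u, b (b u) = u) (hS : ∀ u ∈ S, b u ∈ S) (hf : ∀ u ∈ S, b u ≠ u) :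
    2 * (S.card / 2) = S.card := by
  have : ∑ _u ∈ S, (1 : ZMod 2) = 0 :=
    sum_involution (fun u _ => b u) (fun _ _ => by decide) (fun u hu _ => hf u hu) hS
      fun u _ => hb u
  rw [sum_const, nsmul_one, ZMod.natCast_eq_zero_iff] at this
  omega

omit [Fintype V] in
theorem sum_col {c : V → ℝ} {α : ℝ} (hb : ∀ u, b (b u) = u) (hS : ∀ u ∈ S, b u ∈ S)
    (hf : ∀ u ∈ S, b u ≠ u) (hc : ∀ u ∈ S, c (b u) + c u = α) :
    ∑ u ∈ S, c u = α * (S.card / 2 : ℕ) := by
  have h1 : ∑ u ∈ S, c (b u) = ∑ u ∈ S, c u :=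
    sum_nbij' b b hS hS (fun u _ => hb u) (fun u _ => hb u) fun _ _ => rfl
  have h2 : ∑ u ∈ S, (c (b u) + c u) = S.card * α := by
    rw [sum_congr rfl hc, sum_const, nsmul_eq_mul]
  have h3 : (2 : ℝ) * (S.card / 2 : ℕ) = S.card := by exact_mod_cast card_even hb hS hf
  rw [sum_add_distrib, h1, ← h3] at h2
  linarith

/-- A matching of `D` whose pairs have colour sum `α`. -/
structure Mt (D : Finset V) (c : V → ℝ) (α : ℝ) (b : Perm V) : Prop where
  inv : ∀ u, b (b u) = u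
  fpf : ∀ u ∈ D, b u ≠ u
  off : ∀ u, u ∉ D → b u = u
  col : ∀ u ∈ D, c (b u) + c u = α

variable {c : V → ℝ} {α : ℝ}

omit [Fintype V] in
theorem Mt.mem (h : Mt D c α b) : ∀ u ∈ D, b u ∈ D := fun u hu => by
  by_contra e
  exact h.fpf u hu (b.injective (h.off _ e))

theorem Mt.orb_sub (ha : Mt D c α a) (hb : Mt D c α b) (hx : x ∈ D) : orb a b x ⊆ D :=
  Mp.orb_sub ha.mem hb.mem hx

variable {σ : Type} [DecidableEq σ] {e : ℕ → σ}

variable (e) in
/-- The product of `p_(|C| / 2)` over the orbits `C` that meet `S`. -/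
noncomputable def Pm (a b : Perm V) (S : Finset V) : MvPolynomial σ ℝ :=
  ∏ C ∈ S.image (orb a b), X (e (C.card / 2))

omit [DecidableEq σ] in
theorem Pm_empty : Pm e a b ∅ = 1 := by simp [Pm]

omit [DecidableEq σ] in
theorem Pm_comm : Pm e a b S = Pm e b a S := by
  rw [Pm, Pm, show orb a b = orb b a from funext (orb_comm a b)]

omit [DecidableEq σ] in
theorem Pm_split (ha : ∀ u, a (a u) = u) (hb : ∀ u, b (b u) = u) (hy : y ∈ S) :
    Pm e a b S = X (e ((orb a b y).card / 2)) * Pm e a b (S \ orb a b y) := by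
  have : S.image (orb a b) = insert (orb a b y) ((S \ orb a b y).image (orb a b)) := by
    ext C
    simp only [mem_image, mem_insert, mem_sdiff]
    constructor
    · rintro ⟨x, hx, rfl⟩
      by_cases h : x ∈ orb a b y
      exacts [Or.inl (orb_eq ha hb h), Or.inr ⟨x, ⟨hx, h⟩, rfl⟩]
    · rintro (rfl | ⟨x, hx, rfl⟩)
      exacts [⟨y, hy, rfl⟩, ⟨x, hx.1, rfl⟩]
  rw [Pm, this, prod_insert, Pm]
  simp only [mem_image, mem_sdiff]
  rintro ⟨x, hx, h⟩
  exact hx.2 (h ▸ self_orb a b x)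

omit [DecidableEq σ] in
theorem Pm_congr (ha : ∀ u ∈ T, a u ∈ T) (hb : ∀ u ∈ T, b u ∈ T) (ea : ∀ u ∈ T, a' u = a u)
    (eb : ∀ u ∈ T, b' u = b u) : Pm e a' b' T = Pm e a b T := by
  rw [Pm, Pm, image_congr fun x hx => orb_congr ha hb ea eb hx]

theorem two_le_orb (h : b x ≠ x) : 2 ≤ (orb a b x).card :=
  one_lt_card.2 ⟨_, b_orb (self_orb a b x), _, self_orb a b x, h⟩

omit [DecidableEq σ] in
theorem Pm_free (he : Function.Injective e) (hf : ∀ u ∈ S, b u ≠ u) :
    Free (e 0) (Pm e a b S) := by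
  classical
  refine Free.prod _ fun C hC => Free.X fun h => ?_
  obtain ⟨x, hx, rfl⟩ := mem_image.1 hC
  have := two_le_orb (a := a) (hf x hx)
  have := he h
  omega

theorem Dr_Pm (he : Function.Injective e) (ha : ∀ u, a (a u) = u) (hb : ∀ u, b (b u) = u)
    (S : Finset V) (ca : ∀ u ∈ S, a u ∈ S) (cb : ∀ u ∈ S, b u ∈ S) (hf : ∀ u ∈ S, b u ≠ u)
    (hc : ∀ u ∈ S, c (b u) + c u = α) : Dr α e (Pm e a b S) =
      ∑ v ∈ S, c v • (X (e 0) ^ ((orb a b v).card / 2) * Pm e a b (S \ orb a b v)) := by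
  induction S using Finset.strongInduction with
  | H S ih =>
  rcases S.eq_empty_or_nonempty with rfl | ⟨y, hy⟩
  · simp [Pm_empty]
  have hO := orb_sub ca cb hy
  have h2 := two_le_orb (a := a) (hf y hy)
  rw [Pm_split ha hb hy, Derivation.leibniz, ih (S \ orb a b y)
    (sdiff_ssubset hO ⟨y, self_orb _ _ _⟩) (closed_sdiff ha ca fun _ => a_orb)
    (closed_sdiff hb cb fun _ => b_orb) (fun u hu => hf u (mem_sdiff.1 hu).1)
    (fun u hu => hc u (mem_sdiff.1 hu).1), Dr_e α he, dv, if_neg (by omega),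
    ← sum_sdiff hO, smul_eq_mul, smul_eq_mul, mul_sum]
  congr 1
  · refine sum_congr rfl fun v hv => ?_
    have : y ∈ S \ orb a b v := mem_sdiff.2 ⟨hy, fun h => (mem_sdiff.1 hv).2 (orb_symm ha hb h)⟩
    rw [Pm_split ha hb this, sdiff_right_comm, mul_smul_comm]
    congr 1
    ring
  · rw [sum_congr rfl fun v hv => by rw [orb_eq ha hb hv], ← sum_smul,
      sum_col hb (fun _ => b_orb) (fun u hu => hf u (hO hu)) fun u hu => hc u (hO hu),
      mul_smul_comm, mul_comm (Pm _ _ _ _)]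

variable (e) in
/-- The monomial of a pair of matchings of `D` with a marked point `r`. -/
noncomputable def ty (a b : Perm V) (D : Finset V) (r : V) : MvPolynomial σ ℝ :=
  X (e 0) ^ ((orb a b r).card / 2 - 1) * Pm e a b (D \ orb a b r)

omit [DecidableEq σ] in
theorem ty_comm : ty e a b D r = ty e b a D r := by rw [ty, ty, orb_comm, Pm_comm]

end Pool.Agent.Lib.MP_fcdd89_co.Mp
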