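import Pool.Agent.Lib.MP_fcdd89_co.Mp.Map

/-!
From labelled coloured triples of matchings to rooted maps.
-/

set_option autoImplicit false

open Finset Equiv

namespace Pool.Agent.Lib.MP_fcdd89_co.Mp

variable {n : ℕ}

noncomputable instance : Fintype (LMap n) := Fintype.ofFinite _

theorem LMap.ind (L : LMap n) {p : Fin (2 * n) → Prop} (h0 : p L.r)
    (h : ∀ x, p x → p (L.e x) ∧ p (L.b x) ∧ p (L.w x)) (x : Fin (2 * n)) : p x := by
  have := L.conn L.r x
  induction this with
  | refl => exact h0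
  | tail _ k ih => rcases k with rfl | rfl | rfl; exacts [(h _ ih).1, (h _ ih).2.1, (h _ ih).2.2]

/-- The relabelled map. -/
def LMap.act (g : Perm (Fin (2 * n))) (L : LMap n) : LMap n where
  e := g * L.e * g⁻¹
  b := g * L.b * g⁻¹
  w := g * L.w * g⁻¹
  r := g L.r
  inv x := by simp [L.inv]
  fpf x := by
    obtain ⟨y, rfl⟩ := g.surjective x
    simpa using L.fpf y
  conn x y := by
    obtain ⟨x, rfl⟩ := g.surjective x
    obtain ⟨y, rfl⟩ := g.surjective y
    have := L.conn x y
    induction this with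
    | refl => exact .refl
    | tail _ h ih => exact ih.tail (by rcases h with rfl | rfl | rfl <;> simp)

/-- The class of a labelled map. -/
def LMap.cl (L : LMap n) : RMap n := Quotient.mk _ L

open Classical in
theorem card_fibre (M : RMap n) :
    (univ.filter fun L : LMap n => L.cl = M).card = (2 * n).factorial := by
  obtain ⟨L, rfl⟩ := Quotient.exists_rep M
  rw [← Fintype.card_fin (2 * n), ← Fintype.card_perm, ← card_univ]
  refine (card_bij (fun g _ => L.act g) (fun g _ => ?_) (fun g _ g' _ h => ?_) fun M hM => ?_).symm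
  · exact mem_filter.2 ⟨mem_univ _, (Quotient.sound
      (s := LMap.setoid n) ⟨g, rfl, fun x => by simp [LMap.act]⟩).symm⟩
  · have he := fun x => congrArg (fun N : LMap n => N.e (g x)) h
    have hb := fun x => congrArg (fun N : LMap n => N.b (g x)) h
    have hw := fun x => congrArg (fun N : LMap n => N.w (g x)) h
    refine Equiv.ext (L.ind (congrArg LMap.r h) fun x hx => ⟨?_, ?_, ?_⟩)
    · simpa [LMap.act, (g'.symm_apply_eq.2 hx : _)] using he x
    · simpa [LMap.act, (g'.symm_apply_eq.2 hx : _)] using hb x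
    · simpa [LMap.act, (g'.symm_apply_eq.2 hx : _)] using hw x
  · obtain ⟨g, h, k⟩ : L.Iso M := Quotient.exact (mem_filter.1 hM).2.symm
    refine ⟨g, mem_univ _, LMap.ext ?_ ?_ ?_ h⟩ <;> refine Equiv.ext fun x => ?_ <;>
      obtain ⟨y, rfl⟩ := g.surjective x <;> simp [LMap.act, k y]

theorem sum_cl (f : RMap n → ℝ) :
    ∑ L : LMap n, f L.cl = (2 * n).factorial * ∑ M : RMap n, f M := by
  classical
  rw [← sum_fiberwise univ LMap.cl, mul_sum]
  refine sum_congr rfl fun M _ => ?_
  rw [sum_congr rfl fun L hL => by rw [(mem_filter.1 hL).2], sum_const, nsmul_eq_mul]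
  congr 2
  convert card_fibre M

open Classical in
theorem sum_col_set {α : ℝ} (hα : α = 1 ∨ α = 2) (L : LMap n) (p : Prop) :
    (∑ K ∈ univ.powerset with ind K L.r = α - 1, if Mt univ (ind K) α L.b ∧
      Mt univ (ind K) α L.e ∧ Mt univ (ind K) α L.w ∧ cmp L.b L.e L.w L.r = univ ∧ p
        then (1 : ℝ) else 0) = if (α = 1 → L.Orientable) ∧ p then 1 else 0 := by
  have hc : cmp L.b L.e L.w L.r = univ := eq_univ_of_forall fun x =>
    mem_cmp.2 (Relation.ReflTransGen.mono (fun u v h => by tauto) _ _ (L.conn L.r x))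
  split_ifs with h
  · obtain ⟨K, h0, hK⟩ : ∃ K, ind K L.r = α - 1 ∧ ∀ x, ind K (L.e x) + ind K x = α ∧
        ind K (L.b x) + ind K x = α ∧ ind K (L.w x) + ind K x = α := by
      rcases hα with rfl | rfl
      · obtain ⟨c, hc⟩ := h.1 rfl
        have key : ∀ x y, c y ≠ c x → ind (univ.filter fun u => c u ≠ c L.r) y +
            ind (univ.filter fun u => c u ≠ c L.r) x = 1 := fun x y hxy => by
          simp only [ind, mem_filter, mem_univ, true_and]
          revert hxy
          cases c x <;> cases c y <;> cases c L.r <;> simp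
        exact ⟨_, by simp [ind], fun x =>
          ⟨key _ _ (hc x).1, key _ _ (hc x).2.1, key _ _ (hc x).2.2⟩⟩
      · exact ⟨univ, by norm_num [ind], fun x => by norm_num [ind]⟩
    rw [sum_eq_single_of_mem K (by simp [h0]) fun K' hK' hne => if_neg fun k => hne ?_, if_pos]
    · exact ⟨⟨fun u => (L.inv u).2.1, fun u _ => (L.fpf u).2.1, by simp, fun u _ => (hK u).2.1⟩,
        ⟨fun u => (L.inv u).1, fun u _ => (L.fpf u).1, by simp, fun u _ => (hK u).1⟩,
        ⟨fun u => (L.inv u).2.2, fun u _ => (L.fpf u).2.2, by simp, fun u _ => (hK u).2.2⟩,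
        hc, h.2⟩
    · have : ∀ x, ind K' x = ind K x := L.ind ((mem_filter.1 hK').2.trans h0.symm) fun x hx => by
        have a := k.1.col x (mem_univ _)
        have b := k.2.1.col x (mem_univ _)
        have c := k.2.2.1.col x (mem_univ _)
        obtain ⟨d, e, f⟩ := hK x
        exact ⟨by linarith, by linarith, by linarith⟩
      ext x
      have := this x
      simp only [ind] at this
      split_ifs at this <;> simp_all
  · refine sum_eq_zero fun K _ => if_neg fun k => h ⟨?_, k.2.2.2.2⟩
    rintro rfl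
    have key : ∀ x y, ind K y + ind K x = 1 → decide (y ∈ K) ≠ decide (x ∈ K) := fun x y => by
      simp only [ind]
      split_ifs <;> simp_all
    exact ⟨fun x => decide (x ∈ K), fun x => ⟨key _ _ (k.2.1.col x (mem_univ _)),
      key _ _ (k.1.col x (mem_univ _)), key _ _ (k.2.2.1.col x (mem_univ _))⟩⟩

open Classical in
theorem sum_lab {α : ℝ} (hα : α = 1 ∨ α = 2) (μ ν τ : n.Partition) :
    (∑ r : Fin (2 * n), ∑ K ∈ univ.powerset with ind K r = α - 1, ∑ a ∈ MM α univ K,
      ∑ b ∈ MM α univ K, ∑ d ∈ MM α univ K, if cmp a b d r = univ ∧ typ a b univ = μ.parts ∧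
        typ b d univ = ν.parts ∧ typ d a univ = τ.parts then (1 : ℝ) else 0) =
      (2 * n).factorial * ∑ M : RMap n, if (α = 1 → M.Orientable) ∧ M.Has μ ν τ then 1 else 0 := by
  obtain ⟨F, hF⟩ : ∃ F : Fin (2 * n) → Finset (Finset (Fin (2 * n))),
      ∀ r, (univ.powerset.filter fun K => ind K r = α - 1) = F r := ⟨_, fun _ => rfl⟩
  simp only [hF]
  rw [← sum_cl]
  symm
  refine (Fintype.sum_of_injective (fun L : LMap n => (L.r, L.b, L.e, L.w)) (fun L M h => ?_) _
    (fun t => ∑ K ∈ F t.1, if Mt univ (ind K) α t.2.1 ∧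
      Mt univ (ind K) α t.2.2.1 ∧ Mt univ (ind K) α t.2.2.2 ∧ cmp t.2.1 t.2.2.1 t.2.2.2 t.1 = univ ∧
        typ t.2.1 t.2.2.1 univ = μ.parts ∧ typ t.2.2.1 t.2.2.2 univ = ν.parts ∧
          typ t.2.2.2 t.2.1 univ = τ.parts then (1 : ℝ) else 0) (fun t ht => ?_)
    fun L => ?_).trans ?_
  · simp only [Prod.mk.injEq] at h
    exact LMap.ext h.2.2.1 h.2.1 h.2.2.2 h.1
  · obtain ⟨r, a, b, d⟩ := t
    refine sum_eq_zero fun K _ => if_neg fun ⟨ha, hb, hd, hc, _⟩ => ht ?_
    have h1 : ∀ x, Rch3 a b d r x := fun x => mem_cmp.1 (hc ▸ mem_univ x)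
    have h2 : ∀ x, Rch3 a b d x r := fun x => by
      have := h1 x
      induction this with
      | refl => exact .refl
      | tail _ k ih =>
        refine .head ?_ ih
        rcases k with rfl | rfl | rfl
        exacts [.inl (ha.inv _).symm, .inr (.inl (hb.inv _).symm), .inr (.inr (hd.inv _).symm)]
    exact ⟨⟨b, a, d, r, fun x => ⟨hb.inv x, ha.inv x, hd.inv x⟩, fun x =>
      ⟨hb.fpf x (mem_univ _), ha.fpf x (mem_univ _), hd.fpf x (mem_univ _)⟩, fun x y =>
      Relation.ReflTransGen.mono (fun u v h => by tauto) _ _ ((h2 x).trans (h1 y))⟩, rfl⟩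
  · have := (sum_col_set hα L (L.Has μ ν τ)).symm
    rw [hF] at this
    refine (if_congr Iff.rfl rfl rfl).trans (this.trans ?_)
    exact sum_congr rfl fun K _ => if_congr Iff.rfl rfl rfl
  · rw [Fintype.sum_prod_type]
    refine sum_congr rfl fun r _ => ?_
    dsimp only
    rw [sum_comm]
    refine sum_congr rfl fun K _ => ?_
    simp only [MM, sum_filter, Fintype.sum_prod_type]
    refine sum_congr rfl fun a _ => ?_
    by_cases ha : Mt univ (ind K) α a
    · rw [if_pos ha]
      refine sum_congr rfl fun b _ => ?_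
      by_cases hb : Mt univ (ind K) α b
      · rw [if_pos hb]
        refine sum_congr rfl fun d _ => ?_
        by_cases hd : Mt univ (ind K) α d <;> simp [ha, hb, hd]
      · simp [hb]
    · simp [ha]

end Pool.Agent.Lib.MP_fcdd89_co.Mp
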