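import Pool.Agent.Lib.MP_fcdd89_co.Mp.Defs

/-!
A matching that preserves a subset is the product of its two restrictions.
-/

set_option autoImplicit false

open Finset MvPolynomial Equiv

namespace Pool.Agent.Lib.MP_fcdd89_co.Mp

variable {V : Type} [Fintype V] [DecidableEq V] {α : ℝ} {D S K K1 K2 : Finset V}
  {a a1 a2 : Perm V} {c c1 c2 : V → ℝ} {p : V}

omit [Fintype V] in
theorem mul_left (h2 : Mt (D \ S) c2 α a2) (hp : p ∈ S) : (a1 * a2) p = a1 p := by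
  rw [Perm.mul_apply, h2.off p fun h => (mem_sdiff.1 h).2 hp]

omit [Fintype V] in
theorem mul_right (h1 : Mt S c1 α a1) (h2 : Mt (D \ S) c2 α a2) (hp : p ∉ S) :
    (a1 * a2) p = a2 p := by
  rw [Perm.mul_apply, h1.off]
  by_cases h : p ∈ D \ S
  · exact (mem_sdiff.1 (h2.mem p h)).2
  · rwa [h2.off p h]

omit [Fintype V] in
theorem Mt.mul (hS : S ⊆ D) (h1 : Mt S c1 α a1) (h2 : Mt (D \ S) c2 α a2)
    (e1 : ∀ p ∈ S, c1 p = c p) (e2 : ∀ p ∈ D \ S, c2 p = c p) : Mt D c α (a1 * a2) := by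
  have out : ∀ p, p ∉ S → a2 p ∉ S := fun p hp => by
    by_cases h : p ∈ D \ S
    · exact (mem_sdiff.1 (h2.mem p h)).2
    · rwa [h2.off p h]
  refine ⟨fun p => ?_, fun p hp => ?_, fun p hp => ?_, fun p hp => ?_⟩
  · by_cases h : p ∈ S
    · rw [mul_left h2 h, mul_left h2 (h1.mem p h), h1.inv]
    · rw [mul_right h1 h2 h, mul_right h1 h2 (out p h), h2.inv]
  · by_cases h : p ∈ S
    · rw [mul_left h2 h]
      exact h1.fpf p h
    · rw [mul_right h1 h2 h]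
      exact h2.fpf p (mem_sdiff.2 ⟨hp, h⟩)
  · rw [mul_right h1 h2 fun h => hp (hS h), h2.off p fun h => hp (mem_sdiff.1 h).1]
  · by_cases h : p ∈ S
    · rw [mul_left h2 h, ← e1 p h, ← e1 _ (h1.mem p h), h1.col p h]
    · have h' := mem_sdiff.2 ⟨hp, h⟩
      rw [mul_right h1 h2 h, ← e2 p h', ← e2 _ (h2.mem p h'), h2.col p h']

omit [Fintype V] in
theorem Mt.restrict (h : Mt D c α a) (hS : S ⊆ D) (hc : ∀ p ∈ S, a p ∈ S)
    (e1 : ∀ p ∈ S, c1 p = c p) : ∃ a1, Mt S c1 α a1 ∧ ∀ p ∈ S, a1 p = a p := by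
  have i : Function.Involutive fun p => if p ∈ S then a p else p := fun p => by
    by_cases hp : p ∈ S <;> simp [hp, hc, h.inv]
  refine ⟨i.toPerm, ⟨i, fun p hp => ?_, fun p hp => ?_, fun p hp => ?_⟩, fun p hp => ?_⟩
  · simpa [hp] using h.fpf p (hS hp)
  · simp [hp]
  · simpa [hp, e1 p hp, e1 _ (hc p hp)] using h.col p (hS hp)
  · simp [hp]

omit [Fintype V] in
theorem ind_congr (h : p ∈ K1 ↔ p ∈ K) : ind K1 p = ind K p := by simp [ind, h]

theorem sum_split {M : Type} [AddCommMonoid M] (hS : S ⊆ D) (h1 : ∀ p ∈ S, p ∈ K1 ↔ p ∈ K)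
    (h2 : ∀ p ∈ D \ S, p ∈ K2 ↔ p ∈ K) (g : Perm V → M) :
    ∑ a ∈ MM α D K with (∀ p ∈ S, a p ∈ S), g a =
      ∑ a1 ∈ MM α S K1, ∑ a2 ∈ MM α (D \ S) K2, g (a1 * a2) := by
  have e1 := fun p hp => ind_congr (h1 p hp)
  have e2 := fun p hp => ind_congr (h2 p hp)
  rw [← sum_product']
  refine (sum_bij (fun q _ => q.1 * q.2) (fun q hq => ?_) (fun q hq q' hq' e => ?_)
    (fun a ha => ?_) fun _ _ => rfl).symm
  · obtain ⟨a, b⟩ := mem_product.1 hq
    rw [mem_MM] at a b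
    exact mem_filter.2 ⟨mem_MM.2 (Mt.mul hS a b e1 e2), fun p hp => by
      rw [mul_left b hp]
      exact a.mem p hp⟩
  · obtain ⟨a, b⟩ := mem_product.1 hq
    obtain ⟨a', b'⟩ := mem_product.1 hq'
    rw [mem_MM] at a b a' b'
    have : q.1 = q'.1 := Perm.ext fun p => by
      by_cases hp : p ∈ S
      · rw [← mul_left b hp, e, mul_left b' hp]
      · rw [a.off p hp, a'.off p hp]
    exact Prod.ext this (mul_left_cancel (this ▸ e))
  · obtain ⟨m, hc⟩ := mem_filter.1 ha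
    rw [mem_MM] at m
    obtain ⟨a1, m1, p1⟩ := m.restrict hS hc e1
    obtain ⟨a2, m2, p2⟩ := m.restrict sdiff_subset (closed_sdiff m.inv m.mem hc) e2
    refine ⟨(a1, a2), mem_product.2 ⟨mem_MM.2 m1, mem_MM.2 m2⟩, Perm.ext fun p => ?_⟩
    by_cases hp : p ∈ S
    · rw [mul_left m2 hp, p1 p hp]
    · rw [mul_right m1 m2 hp]
      by_cases hD : p ∈ D
      · exact p2 p (mem_sdiff.2 ⟨hD, hp⟩)
      · rw [m.off p hD, m2.off p fun h => hD (mem_sdiff.1 h).1]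

end Pool.Agent.Lib.MP_fcdd89_co.Mp
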